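import Mathlib

set_option autoImplicit false

/-!
# The ordered ring of differences of an ordered semiring

Every commutative semiring with a linear order making it a strictly ordered semiring in which
subtraction of smaller elements is possible embeds in a linearly ordered commutative ring.
-/

namespace Pool.Agent.RM

variable (M : Type*) [CommSemiring M] [LinearOrder M] [IsStrictOrderedRing M]

/-- equality of formal differences -/
def diffSetoid : Setoid (M × M) where
  r p q := p.1 + q.2 = q.1 + p.2
  iseqv := ⟨fun _ => rfl, fun h => h.symm, fun {a b c} h1 h2 => by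
    have : (a.1 + c.2) + (b.1 + b.2) = (c.1 + a.2) + (b.1 + b.2) := by
      calc (a.1 + c.2) + (b.1 + b.2) = (a.1 + b.2) + (b.1 + c.2) := by ring
        _ = (b.1 + a.2) + (c.1 + b.2) := by rw [h1, h2]
        _ = _ := by ring
    exact add_right_cancel this⟩

/-- the ring of differences -/
def DR : Type _ := Quotient (diffSetoid M)

variable {M}

/-- the formal difference `a - b` -/
def DR.mk (a b : M) : DR M := Quotient.mk (diffSetoid M) (a, b)

lemma DR.mk_eq {a b c d : M} : DR.mk a b = DR.mk c d ↔ a + d = c + b :=
  (Quotient.eq (r := diffSetoid M) (x := (a, b)) (y := (c, d)))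

lemma DR.ind {p : DR M → Prop} (h : ∀ a b, p (DR.mk a b)) (x : DR M) : p x :=
  Quotient.inductionOn x fun ⟨a, b⟩ => h a b

instance : Zero (DR M) := ⟨DR.mk 0 0⟩
instance : One (DR M) := ⟨DR.mk 1 0⟩

instance : Add (DR M) := ⟨Quotient.map₂ (fun p q => (p.1 + q.1, p.2 + q.2)) (by
  rintro ⟨a, b⟩ ⟨a', b'⟩ h ⟨c, d⟩ ⟨c', d'⟩ h'
  change a + b' = a' + b at h
  change c + d' = c' + d at h'
  change a + c + (b' + d') = a' + c' + (b + d)
  calc a + c + (b' + d') = (a + b') + (c + d') := by ring
    _ = _ := by rw [h, h']; ring)⟩

instance : Neg (DR M) := ⟨Quotient.map (fun p => (p.2, p.1)) (by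
  rintro ⟨a, b⟩ ⟨a', b'⟩ h
  change a + b' = a' + b at h
  change b + a' = b' + a
  rw [add_comm, ← h, add_comm])⟩

instance : Mul (DR M) := ⟨Quotient.map₂ (fun p q => (p.1 * q.1 + p.2 * q.2,
    p.1 * q.2 + p.2 * q.1)) (by
  rintro ⟨a, b⟩ ⟨a', b'⟩ h ⟨c, d⟩ ⟨c', d'⟩ h'
  change a + b' = a' + b at h
  change c + d' = c' + d at h'
  change a * c + b * d + (a' * d' + b' * c') = a' * c' + b' * d' + (a * d + b * c)
  have e1 : (a + b') * c + (a' + b) * d = (a' + b) * c + (a + b') * d := by rw [h]
  have e2 : a' * (c + d') + b' * (c' + d) = a' * (c' + d) + b' * (c + d') := by rw [h']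
  have : (a * c + b * d + (a' * d' + b' * c')) + (b' * c + a' * d + a' * c + b' * d) =
      (a' * c' + b' * d' + (a * d + b * c)) + (b' * c + a' * d + a' * c + b' * d) := by
    calc _ = ((a + b') * c + (a' + b) * d) + (a' * (c + d') + b' * (c' + d)) := by ring
      _ = _ := by rw [e1, e2]; ring
  exact add_right_cancel this)⟩

lemma DR.zero_def : (0 : DR M) = DR.mk 0 0 := rfl
lemma DR.one_def : (1 : DR M) = DR.mk 1 0 := rfl
lemma DR.add_mk (a b c d : M) : DR.mk a b + DR.mk c d = DR.mk (a + c) (b + d) := rfl
lemma DR.neg_mk (a b : M) : -DR.mk a b = DR.mk b a := rfl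
lemma DR.mul_mk (a b c d : M) :
    DR.mk a b * DR.mk c d = DR.mk (a * c + b * d) (a * d + b * c) := rfl

instance : CommRing (DR M) where
  add_assoc x y z := by
    induction x using DR.ind with | h a b => induction y using DR.ind with | h c d =>
      induction z using DR.ind with | h e f =>
        simp only [DR.add_mk, add_assoc]
  zero_add x := by
    induction x using DR.ind with | h a b => simp only [DR.zero_def, DR.add_mk, zero_add]
  add_zero x := by
    induction x using DR.ind with | h a b => simp only [DR.zero_def, DR.add_mk, add_zero]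
  add_comm x y := by
    induction x using DR.ind with | h a b => induction y using DR.ind with | h c d =>
      simp only [DR.add_mk, add_comm]
  nsmul := nsmulRec
  zsmul := zsmulRec
  neg_add_cancel x := by
    induction x using DR.ind with | h a b =>
      rw [DR.neg_mk, DR.add_mk, DR.zero_def, DR.mk_eq]; ring
  mul_assoc x y z := by
    induction x using DR.ind with | h a b => induction y using DR.ind with | h c d =>
      induction z using DR.ind with | h e f =>
        simp only [DR.mul_mk, DR.mk_eq]; ring
  one_mul x := by
    induction x using DR.ind with | h a b => simp only [DR.one_def, DR.mul_mk, DR.mk_eq]; ring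
  mul_one x := by
    induction x using DR.ind with | h a b => simp only [DR.one_def, DR.mul_mk, DR.mk_eq]; ring
  zero_mul x := by
    induction x using DR.ind with | h a b => simp only [DR.zero_def, DR.mul_mk, DR.mk_eq]; ring
  mul_zero x := by
    induction x using DR.ind with | h a b => simp only [DR.zero_def, DR.mul_mk, DR.mk_eq]; ring
  left_distrib x y z := by
    induction x using DR.ind with | h a b => induction y using DR.ind with | h c d =>
      induction z using DR.ind with | h e f =>
        simp only [DR.add_mk, DR.mul_mk, DR.mk_eq]; ring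
  right_distrib x y z := by
    induction x using DR.ind with | h a b => induction y using DR.ind with | h c d =>
      induction z using DR.ind with | h e f =>
        simp only [DR.add_mk, DR.mul_mk, DR.mk_eq]; ring
  mul_comm x y := by
    induction x using DR.ind with | h a b => induction y using DR.ind with | h c d =>
      simp only [DR.mul_mk, DR.mk_eq]; ring

instance : LE (DR M) := ⟨Quotient.lift₂ (fun p q => p.1 + q.2 ≤ q.1 + p.2) (by
  rintro ⟨a, b⟩ ⟨c, d⟩ ⟨a', b'⟩ ⟨c', d'⟩ h h'
  change a + b' = a' + b at h
  change c + d' = c' + d at h'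
  change (a + d ≤ c + b) = (a' + d' ≤ c' + b')
  apply propext
  have e1 : (a + d) + (b' + d') = (a' + d') + (b + d) := by
    calc (a + d) + (b' + d') = (a + b') + (d + d') := by ring
      _ = _ := by rw [h]; ring
  have e2 : (c + b) + (b' + d') = (c' + b') + (b + d) := by
    calc (c + b) + (b' + d') = (c + d') + (b + b') := by ring
      _ = _ := by rw [h']; ring
  rw [← add_le_add_iff_right (b' + d'), e1, e2, add_le_add_iff_right])⟩

lemma DR.le_mk {a b c d : M} : DR.mk a b ≤ DR.mk c d ↔ a + d ≤ c + b := Iff.rfl

noncomputable instance : LinearOrder (DR M) where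
  le_refl x := by
    induction x using DR.ind with | h a b => rw [DR.le_mk]
  le_trans x y z := by
    induction x using DR.ind with | h a b => induction y using DR.ind with | h c d =>
      induction z using DR.ind with | h e f =>
        simp only [DR.le_mk]
        intro h1 h2
        rw [← add_le_add_iff_right (c + d)]
        calc a + f + (c + d) = (a + d) + (c + f) := by ring
          _ ≤ (c + b) + (e + d) := add_le_add h1 h2
          _ = _ := by ring
  le_antisymm x y := by
    induction x using DR.ind with | h a b => induction y using DR.ind with | h c d =>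
      simp only [DR.le_mk, DR.mk_eq]
      intro h1 h2
      exact le_antisymm h1 h2
  le_total x y := by
    induction x using DR.ind with | h a b => induction y using DR.ind with | h c d =>
      simp only [DR.le_mk]
      exact le_total _ _
  toDecidableLE := Classical.decRel _

lemma DR.lt_mk {a b c d : M} : DR.mk a b < DR.mk c d ↔ a + d < c + b := by
  rw [lt_iff_not_ge, DR.le_mk, not_le]

instance : IsOrderedAddMonoid (DR M) where
  add_le_add_left x y h z := by
    induction x using DR.ind with | h a b => induction y using DR.ind with | h c d =>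
      induction z using DR.ind with | h e f =>
        simp only [DR.le_mk, DR.add_mk] at h ⊢
        calc a + e + (d + f) = (a + d) + (e + f) := by ring
          _ ≤ (c + b) + (e + f) := by gcongr
          _ = _ := by ring

/-- the embedding of `M` into its ring of differences -/
def toDR : M →+* DR M where
  toFun a := DR.mk a 0
  map_zero' := rfl
  map_one' := rfl
  map_add' a b := by simp only [DR.add_mk, DR.mk_eq]; ring
  map_mul' a b := by simp only [DR.mul_mk, DR.mk_eq]; ring

lemma toDR_le {a b : M} : toDR a ≤ toDR b ↔ a ≤ b := by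
  change DR.mk a 0 ≤ DR.mk b 0 ↔ _
  rw [DR.le_mk, add_zero, add_zero]

lemma toDR_lt {a b : M} : toDR a < toDR b ↔ a < b := by
  change DR.mk a 0 < DR.mk b 0 ↔ _
  rw [DR.lt_mk, add_zero, add_zero]

lemma toDR_inj {a b : M} : toDR a = toDR b ↔ a = b := by
  change DR.mk a 0 = DR.mk b 0 ↔ _
  rw [DR.mk_eq, add_zero, add_zero]

variable (M) in
/-- the ordered ring of differences of an ordered semiring with subtraction -/
lemma DR.isStrictOrderedRing (hM : ∀ a b : M, a ≤ b → ∃ c, b = a + c) :
    IsStrictOrderedRing (DR M) := by
  have hpos : ∀ x : DR M, 0 < x → ∃ a : M, 0 < a ∧ x = toDR a := by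
    intro x
    induction x using DR.ind with | h a b =>
      intro h
      rw [DR.zero_def, DR.lt_mk, zero_add, add_zero] at h
      obtain ⟨c, rfl⟩ := hM b a h.le
      refine ⟨c, ?_, ?_⟩
      · exact pos_of_lt_add_right h
      · change DR.mk _ _ = DR.mk c 0
        rw [DR.mk_eq]; ring
  have : Nontrivial (DR M) := ⟨0, 1, by
    intro h
    rw [DR.zero_def, DR.one_def, DR.mk_eq] at h
    simp at h⟩
  have : ZeroLEOneClass (DR M) := ⟨by
    rw [DR.zero_def, DR.one_def, DR.le_mk]; simp⟩
  apply IsStrictOrderedRing.of_mul_pos
  intro x y hx hy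
  obtain ⟨a, ha, rfl⟩ := hpos x hx
  obtain ⟨b, hb, rfl⟩ := hpos y hy
  rw [← map_mul, ← map_zero toDR, toDR_lt]
  exact mul_pos ha hb

end Pool.Agent.RM
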