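import Pool.Agent.RM.Bounded
import Pool.Agent.RM.DiffRing

set_option autoImplicit false
set_option linter.unusedSimpArgs false
set_option linter.unusedSectionVars false

/-!
# Basic consequences of RCA₀

We develop a calculus of recursive (`Rec`) and recursively enumerable (`RE`) predicates inside a
model `(M, S)` of RCA₀, in the style where a predicate of several variables is a predicate of
one coded tuple.
-/

namespace Pool.Agent.RM

variable {M : Type*} [CommSemiring M] [LinearOrder M]

variable (M) in
/-- The first-order part: discretely ordered semirings. -/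
class Disc : Prop extends IsStrictOrderedRing M where
  zero_le' : ∀ a : M, 0 ≤ a
  discrete : ∀ a b : M, a < b ↔ a + 1 ≤ b
  exists_add : ∀ a b : M, a ≤ b → ∃ c, b = a + c

/-- `(M, S)` is a model of RCA₀, as a class. -/
class IsRCA (S : Set (Set M)) : Prop where
  out : IsModelRCA0 M S

/-! ### Arithmetic in `M` -/

section Arith

variable [Disc M]

instance : IsStrictOrderedRing (DR M) := DR.isStrictOrderedRing M Disc.exists_add

/-- transfer to the ring of differences -/
lemma tr_le {a b : M} : a ≤ b ↔ toDR a ≤ toDR b := toDR_le.symm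
/-- transfer to the ring of differences -/
lemma tr_lt {a b : M} : a < b ↔ toDR a < toDR b := toDR_lt.symm
/-- transfer to the ring of differences -/
lemma tr_eq {a b : M} : a = b ↔ toDR a = toDR b := toDR_inj.symm

lemma lt_succ_iff {a b : M} : a < b + 1 ↔ a ≤ b := by
  constructor
  · intro h
    by_contra hb
    push Not at hb
    exact absurd ((Disc.discrete b a).mp hb) (not_le.mpr h)
  · intro h
    exact lt_of_le_of_lt h ((Disc.discrete b (b + 1)).mpr le_rfl)

lemma lt_succ_self' (a : M) : a < a + 1 := lt_succ_iff.mpr le_rfl

lemma zero_le'' (a : M) : 0 ≤ a := Disc.zero_le' a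

lemma pos_iff {a : M} : 0 < a ↔ a ≠ 0 :=
  ⟨fun h => h.ne', fun h => lt_of_le_of_ne (zero_le'' a) h.symm⟩

lemma one_le_iff {a : M} : 1 ≤ a ↔ a ≠ 0 := by
  rw [← pos_iff, Disc.discrete 0 a, zero_add]

lemma eq_zero_or_succ (a : M) : a = 0 ∨ ∃ b, a = b + 1 := by
  by_cases h : a = 0
  · exact Or.inl h
  · obtain ⟨c, hc⟩ := Disc.exists_add 1 a (one_le_iff.mpr h)
    exact Or.inr ⟨c, by rw [hc, add_comm]⟩

lemma le_add_r (a b : M) : a ≤ a + b := by
  have := zero_le'' b
  simp only [tr_le, map_add, map_zero] at *
  linarith

lemma le_add_l (a b : M) : b ≤ a + b := by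
  have := zero_le'' a
  simp only [tr_le, map_add, map_zero] at *
  linarith

lemma le_mul_self' (a : M) : a ≤ a * a := by
  rcases eq_zero_or_succ a with rfl | ⟨b, rfl⟩
  · simp
  · have := zero_le'' b
    simp only [tr_le, map_add, map_zero, map_mul, map_one] at *
    nlinarith

lemma left_le_pair (a b : M) : a ≤ pair a b := by
  unfold pair
  have := zero_le'' a
  have := zero_le'' b
  have := le_mul_self' a
  split_ifs with h <;> simp only [tr_le, tr_lt, map_add, map_zero, map_mul] at * <;>
    nlinarith

lemma right_le_pair (a b : M) : b ≤ pair a b := by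
  unfold pair
  have := zero_le'' a
  have := zero_le'' b
  have := le_mul_self' b
  split_ifs with h <;> simp only [tr_le, tr_lt, map_add, map_zero, map_mul] at * <;>
    nlinarith

/-- if `a² + x = b² + y` and `x ≤ 2 a` and `y ≤ 2 b` then `a = b` -/
lemma sq_unique {a b x y : M} (h : a * a + x = b * b + y) (hx : x ≤ a + a) (hy : y ≤ b + b) :
    a = b := by
  have := zero_le'' a
  have := zero_le'' b
  have := zero_le'' x
  have := zero_le'' y
  apply le_antisymm
  · by_contra hb
    push Not at hb
    have := (Disc.discrete b a).mp hb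
    simp only [tr_le, tr_lt, tr_eq, map_add, map_zero, map_mul, map_one] at *
    nlinarith
  · by_contra hb
    push Not at hb
    have := (Disc.discrete a b).mp hb
    simp only [tr_le, tr_lt, tr_eq, map_add, map_zero, map_mul, map_one] at *
    nlinarith

lemma pair_inj {a b c d : M} (h : pair a b = pair c d) : a = c ∧ b = d := by
  unfold pair at h
  have ha := zero_le'' a
  have hb := zero_le'' b
  have hc := zero_le'' c
  have hd := zero_le'' d
  split_ifs at h with h1 h2 h2
  · have e : b = d := sq_unique h (h1.le.trans (le_add_r _ _)) (h2.le.trans (le_add_r _ _))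
    subst e
    exact ⟨add_left_cancel h, rfl⟩
  · push Not at h2
    rw [add_assoc] at h
    have e : b = c := sq_unique (x := a) (y := c + d) h (h1.le.trans (le_add_r _ _))
      (by gcongr)
    subst e
    exfalso
    have : a = b + d := add_left_cancel h
    have := le_add_r b d
    simp only [tr_le, tr_lt, tr_eq, map_add, map_zero, map_mul, map_one] at *
    linarith
  · push Not at h1
    rw [add_assoc] at h
    have e : a = d := sq_unique (x := a + b) (y := c) h (by gcongr) (h2.le.trans (le_add_r _ _))
    subst e
    exfalso
    have : a + b = c := add_left_cancel h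
    simp only [tr_le, tr_lt, tr_eq, map_add, map_zero, map_mul, map_one] at *
    linarith
  · push Not at h1 h2
    rw [add_assoc, add_assoc] at h
    have e : a = c := sq_unique (x := a + b) (y := c + d) h (by gcongr) (by gcongr)
    subst e
    exact ⟨rfl, add_left_cancel (add_left_cancel h)⟩

lemma pair_le_bound (a b : M) : pair a b ≤ (a + b) * (a + b) + (a + b) := by
  unfold pair
  have := zero_le'' a
  have := zero_le'' b
  split_ifs <;>
    simp only [tr_le, tr_lt, map_add, map_zero, map_mul] at * <;> nlinarith

end Arith

section Pairing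

variable [Disc M] (S : Set (Set M)) [hS : IsRCA S]

include hS in
lemma exists_sqrt (z : M) : ∃ x, x * x ≤ z ∧ z < (x + 1) * (x + 1) := by
  have key := hS.out.sigma_one_induction
    (fun v => v 1 * v 1 < v 0 + 1 ∧ v 0 < (v 1 + 1) * (v 1 + 1))
    (.and (.lt (.mul (.var 1) (.var 1)) (.add (.var 0) (.param 1)))
      (.lt (.var 0) (.mul (.add (.var 1) (.param 1)) (.add (.var 1) (.param 1)))))
    ⟨0, by simp⟩
    (by
      rintro x ⟨y, h1, h2⟩
      simp only [Matrix.cons_val_zero, Matrix.cons_val_one, lt_succ_iff] at h1 h2 ⊢
      by_cases h : x + 1 < (y + 1) * (y + 1)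
      · exact ⟨y, h1.trans (le_add_r _ _), h⟩
      · push Not at h
        refine ⟨y + 1, h, ?_⟩
        have h3 := (Disc.discrete _ _).mp h2
        have := zero_le'' y
        simp only [tr_le, tr_lt, map_add, map_zero, map_mul, map_one] at *
        nlinarith)
    z
  obtain ⟨x, h1, h2⟩ := key
  simp only [Matrix.cons_val_zero, Matrix.cons_val_one, lt_succ_iff] at h1 h2
  exact ⟨x, h1, h2⟩

include hS in
lemma exists_pair (z : M) : ∃ p : M × M, z = pair p.1 p.2 := by
  obtain ⟨x, h1, h2⟩ := exists_sqrt S z
  obtain ⟨r, rfl⟩ := Disc.exists_add _ _ h1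
  have hr : r ≤ x + x := by
    rw [← lt_succ_iff]
    simp only [tr_le, tr_lt, map_add, map_zero, map_mul, map_one] at *
    nlinarith
  by_cases h : r < x
  · exact ⟨(r, x), by simp [pair, h]⟩
  · push Not at h
    obtain ⟨b, rfl⟩ := Disc.exists_add _ _ h
    refine ⟨(x, b), ?_⟩
    have : ¬ x < b := by
      push Not
      simp only [tr_le, tr_lt, map_add, map_zero, map_mul, map_one] at *
      linarith
    simp [pair, this, add_assoc]

end Pairing

/-- unpairing -/
noncomputable def unpair (z : M) : M × M :=
  Classical.epsilon (fun p : M × M => z = pair p.1 p.2)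

/-- first component -/
noncomputable def fst (z : M) : M := (unpair z).1
/-- second component -/
noncomputable def snd (z : M) : M := (unpair z).2

section Pairing2

variable [Disc M]

@[simp] lemma fst_pair (a b : M) : fst (pair a b) = a := by
  have : (fun p : M × M => pair a b = pair p.1 p.2) (unpair (pair a b)) :=
    Classical.epsilon_spec (p := fun p : M × M => pair a b = pair p.1 p.2) ⟨(a, b), rfl⟩
  exact (pair_inj this).1.symm

@[simp] lemma snd_pair (a b : M) : snd (pair a b) = b := by
  have : (fun p : M × M => pair a b = pair p.1 p.2) (unpair (pair a b)) :=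
    Classical.epsilon_spec (p := fun p : M × M => pair a b = pair p.1 p.2) ⟨(a, b), rfl⟩
  exact (pair_inj this).2.symm

variable (S : Set (Set M)) [hS : IsRCA S]

include hS in
lemma pair_fst_snd (z : M) : pair (fst z) (snd z) = z := by
  have : (fun p : M × M => z = pair p.1 p.2) (unpair z) :=
    Classical.epsilon_spec (exists_pair S z)
  exact this.symm

include hS in
lemma fst_le (z : M) : fst z ≤ z := by
  conv_rhs => rw [← pair_fst_snd S z]
  exact left_le_pair _ _

include hS in
lemma snd_le (z : M) : snd z ≤ z := by
  conv_rhs => rw [← pair_fst_snd S z]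
  exact right_le_pair _ _

end Pairing2

end Pool.Agent.RM
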