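import Pool.Agent.RM.Defs

set_option autoImplicit false
set_option linter.unusedSectionVars false

/-!
# Closure properties of bounded formulas
-/

namespace Pool.Agent.RM

variable {M : Type*} [Zero M] [One M] [Add M] [Mul M] [LT M]

/-! ### Bounded formulas -/

section Bounded

variable {S : Set (Set M)}

lemma IsTerm.subst {n m : ℕ} {t : (Fin n → M) → M} (ht : IsTerm t)
    (u : Fin n → (Fin m → M) → M) (hu : ∀ i, IsTerm (u i)) :
    IsTerm (fun v => t (fun i => u i v)) := by
  induction ht with
  | var i => exact hu i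
  | param a => exact .param a
  | add _ _ ih1 ih2 => exact ih1.add ih2
  | mul _ _ ih1 ih2 => exact ih1.mul ih2

lemma IsBounded.subst {n m : ℕ} {P : (Fin n → M) → Prop} (hP : IsBounded S P)
    (u : Fin n → (Fin m → M) → M) (hu : ∀ i, IsTerm (u i)) :
    IsBounded S (fun v => P (fun i => u i v)) := by
  induction hP generalizing m with
  | eq hs ht => exact .eq (hs.subst u hu) (ht.subst u hu)
  | lt hs ht => exact .lt (hs.subst u hu) (ht.subst u hu)
  | mem hX ht => exact .mem hX (ht.subst u hu)
  | not _ ih => exact .not (ih u hu)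
  | and _ _ ih1 ih2 => exact .and (ih1 u hu) (ih2 u hu)
  | @ball k t P ht _ ih =>
    have := ih (m := m + 1) (Fin.cons (fun w => w 0) (fun i => fun w => u i (Fin.tail w))) (by
      intro i
      refine Fin.cases ?_ ?_ i
      · exact .var 0
      · intro j
        exact (hu j).subst (fun i w => w i.succ) (fun i => .var _))
    have h2 := IsBounded.ball (ht.subst u hu) this
    have e : (fun v : Fin m → M => ∀ a, a < t (fun i => u i v) →
        P (Fin.cons a (fun i => u i v))) = (fun v => ∀ a, a < t (fun i => u i v) →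
        P (fun i => Fin.cons (α := fun _ => (Fin (m + 1) → M) → M) (fun w => w 0)
          (fun i => fun w => u i (Fin.tail w)) i (Fin.cons a v))) := by
      funext v
      refine forall_congr fun a => ?_
      have : (Fin.cons a (fun i => u i v) : Fin (k + 1) → M) =
          fun i => Fin.cons (α := fun _ => (Fin (m + 1) → M) → M) (fun w => w 0)
          (fun i => fun w => u i (Fin.tail w)) i (Fin.cons a v) := by
        funext i
        refine Fin.cases ?_ ?_ i
        · simp
        · intro j; simp
      rw [this]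
    rw [e]
    exact h2

lemma IsBounded.congr {n : ℕ} {P Q : (Fin n → M) → Prop} (hP : IsBounded S P)
    (h : ∀ v, P v ↔ Q v) : IsBounded S Q := by
  have : P = Q := by funext v; exact propext (h v)
  rwa [← this]

lemma IsBounded.or {n : ℕ} {P Q : (Fin n → M) → Prop} (hP : IsBounded S P) (hQ : IsBounded S Q) :
    IsBounded S (fun v => P v ∨ Q v) :=
  (hP.not.and hQ.not).not.congr fun v => by tauto

lemma IsBounded.imp {n : ℕ} {P Q : (Fin n → M) → Prop} (hP : IsBounded S P)
    (hQ : IsBounded S Q) : IsBounded S (fun v => P v → Q v) :=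
  (hP.and hQ.not).not.congr fun v => by tauto

lemma IsBounded.ball' {n : ℕ} {t : (Fin n → M) → M} {Q : M → (Fin n → M) → Prop} (ht : IsTerm t)
    (hQ : IsBounded S (fun w : Fin (n + 1) → M => Q (w 0) (fun i => w i.succ))) :
    IsBounded S (fun v => ∀ a, a < t v → Q a v) :=
  (IsBounded.ball ht hQ).congr fun v => by simp

lemma IsBounded.bex' {n : ℕ} {t : (Fin n → M) → M} {Q : M → (Fin n → M) → Prop} (ht : IsTerm t)
    (hQ : IsBounded S (fun w : Fin (n + 1) → M => Q (w 0) (fun i => w i.succ))) :
    IsBounded S (fun v => ∃ a, a < t v ∧ Q a v) :=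
  (IsBounded.ball' (Q := fun a v => ¬ Q a v) ht hQ.not).not.congr fun v => by push Not; rfl

lemma IsBounded.pair_mem {n : ℕ} {s t : (Fin n → M) → M} {X : Set M} (hX : X ∈ S)
    (hs : IsTerm s) (ht : IsTerm t) : IsBounded S (fun v => pair (s v) (t v) ∈ X) := by
  refine (((IsBounded.lt hs ht).and (.mem hX ((ht.mul ht).add hs))).or
    ((IsBounded.lt hs ht).not.and (.mem hX (((hs.mul hs).add hs).add ht)))).congr fun v => ?_
  unfold pair
  split_ifs with h <;> simp [h]

lemma IsBounded.pair_eq {n : ℕ} {s t u : (Fin n → M) → M}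
    (hs : IsTerm s) (ht : IsTerm t) (hu : IsTerm u) :
    IsBounded S (fun v => u v = pair (s v) (t v)) := by
  refine (((IsBounded.lt hs ht).and (.eq hu ((ht.mul ht).add hs))).or
    ((IsBounded.lt hs ht).not.and (.eq hu (((hs.mul hs).add hs).add ht)))).congr fun v => ?_
  unfold pair
  split_ifs with h <;> simp [h]

end Bounded

end Pool.Agent.RM
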