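import Pool.Agent.RM.Base

set_option autoImplicit false
set_option linter.unusedSimpArgs false
set_option linter.unusedSectionVars false

/-!
# The calculus of recursive and r.e. predicates in a model of RCA₀
-/

namespace Pool.Agent.RM

variable {M : Type*} [CommSemiring M] [LinearOrder M] [Disc M]
variable (S : Set (Set M)) [hS : IsRCA S]

/-- the predicate `P` is recursive: its extension belongs to `S` -/
def Rec (P : M → Prop) : Prop := {x | P x} ∈ S

/-- the predicate `P` is recursively enumerable -/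
def RE (P : M → Prop) : Prop := ∃ X ∈ S, ∀ z, P z ↔ ∃ y, pair z y ∈ X

/-- the function `f` is recursive: its graph belongs to `S` -/
def RF (f : M → M) : Prop := {z | f (fst z) = snd z} ∈ S

variable {S}

lemma Rec.congr {P Q : M → Prop} (hP : Rec S P) (h : ∀ x, P x ↔ Q x) : Rec S Q := by
  have : P = Q := by funext v; exact propext (h v)
  rwa [← this]

lemma RE.congr {P Q : M → Prop} (hP : RE S P) (h : ∀ x, P x ↔ Q x) : RE S Q := by
  have : P = Q := by funext v; exact propext (h v)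
  rwa [← this]

lemma RF.congr {f g : M → M} (hf : RF S f) (h : ∀ x, f x = g x) : RF S g := by
  have : f = g := funext h
  rwa [← this]

lemma rec_of_bounded₂ {P Q : M → M → Prop} (hP : IsBounded S (fun v : Fin 2 → M => P (v 0) (v 1)))
    (hQ : IsBounded S (fun v : Fin 2 → M => Q (v 0) (v 1)))
    (h : ∀ x, (∃ y, P x y) ↔ ∀ y, Q x y) : Rec S (fun x => ∃ y, P x y) := by
  have := hS.out.delta_one_comprehension _ _ hP hQ (by simpa using h)
  simpa [Rec] using this

lemma rec_of_bounded {P : M → Prop} (hP : IsBounded S (fun v : Fin 1 → M => P (v 0))) :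
    Rec S P := by
  have h1 : IsBounded S (fun v : Fin 2 → M => P (v 0)) :=
    hP.subst (fun _ w => w 0) (fun _ => .var _)
  have := rec_of_bounded₂ (S := S) (P := fun x _ => P x) (Q := fun x _ => P x) h1 h1
    (by intro x; simp)
  exact this.congr (by intro x; simp)

lemma mem_of_RF {f : M → M} {a b : M} : pair a b ∈ {z | f (fst z) = snd z} ↔ f a = b := by
  simp

/-- substitution of a recursive function in a recursive predicate -/
lemma Rec.comp {P : M → Prop} {f : M → M} (hP : Rec S P) (hf : RF S f) :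
    Rec S (fun x => P (f x)) := by
  have h1 : IsBounded S (fun v : Fin 2 → M => pair (v 0) (v 1) ∈ {z | f (fst z) = snd z} ∧
      v 1 ∈ {x | P x}) := (IsBounded.pair_mem hf (.var 0) (.var 1)).and (.mem hP (.var 1))
  have h2 : IsBounded S (fun v : Fin 2 → M => pair (v 0) (v 1) ∈ {z | f (fst z) = snd z} →
      v 1 ∈ {x | P x}) := (IsBounded.pair_mem hf (.var 0) (.var 1)).imp (.mem hP (.var 1))
  have := rec_of_bounded₂ (S := S)
    (P := fun x y => pair x y ∈ {z | f (fst z) = snd z} ∧ y ∈ {x | P x})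
    (Q := fun x y => pair x y ∈ {z | f (fst z) = snd z} → y ∈ {x | P x}) h1 h2
    (by intro x; simp)
  exact this.congr (by intro x; simp)

lemma RF.id : RF S (fun x => x) := by
  have : IsBounded S (fun v : Fin 1 → M => ∃ a, a < v 0 + 1 ∧ v 0 = pair a a) :=
    IsBounded.bex' (.add (.var 0) (.param 1)) (.pair_eq (.var 0) (.var 0) (.var 1))
  refine (rec_of_bounded (P := fun z => ∃ a, a < z + 1 ∧ z = pair a a) this).congr fun z => ?_
  constructor
  · rintro ⟨a, _, rfl⟩; simp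
  · intro h
    refine ⟨fst z, lt_succ_iff.mpr (fst_le S z), ?_⟩
    conv_lhs => rw [← pair_fst_snd S z, ← h]

lemma RF.const (c : M) : RF S (fun _ => c) := by
  have : IsBounded S (fun v : Fin 1 → M => ∃ a, a < v 0 + 1 ∧ v 0 = pair a c) :=
    IsBounded.bex' (.add (.var 0) (.param 1)) (.pair_eq (.var 0) (.param c) (.var 1))
  refine (rec_of_bounded (P := fun z => ∃ a, a < z + 1 ∧ z = pair a c) this).congr fun z => ?_
  constructor
  · rintro ⟨a, _, rfl⟩; simp
  · intro h
    refine ⟨fst z, lt_succ_iff.mpr (fst_le S z), ?_⟩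
    conv_lhs => rw [← pair_fst_snd S z, ← h]

lemma RF.fst' : RF S (fst : M → M) := by
  have : IsBounded S (fun v : Fin 1 → M => ∃ a, a < v 0 + 1 ∧ ∃ b, b < v 0 + 1 ∧
      ∃ c, c < v 0 + 1 ∧ (v 0 = pair a b ∧ a = pair b c)) :=
    IsBounded.bex' (.add (.var 0) (.param 1)) (IsBounded.bex' (.add (.var 1) (.param 1))
      (IsBounded.bex' (.add (.var 2) (.param 1)) (.and (.pair_eq (.var 2) (.var 1) (.var 3))
        (.pair_eq (.var 1) (.var 0) (.var 2)))))
  refine (rec_of_bounded (P := fun z => ∃ a, a < z + 1 ∧ ∃ b, b < z + 1 ∧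
      ∃ c, c < z + 1 ∧ (z = pair a b ∧ a = pair b c)) this).congr fun z => ?_
  constructor
  · rintro ⟨a, _, b, _, c, _, rfl, rfl⟩; simp
  · intro h
    refine ⟨fst z, lt_succ_iff.mpr (fst_le S z), snd z, lt_succ_iff.mpr (snd_le S z),
      snd (fst z), lt_succ_iff.mpr ((snd_le S _).trans (fst_le S z)), ?_, ?_⟩
    · rw [pair_fst_snd S]
    · rw [← h, pair_fst_snd S]

lemma RF.snd' : RF S (snd : M → M) := by
  have : IsBounded S (fun v : Fin 1 → M => ∃ a, a < v 0 + 1 ∧ ∃ b, b < v 0 + 1 ∧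
      ∃ c, c < v 0 + 1 ∧ (v 0 = pair a b ∧ a = pair c b)) :=
    IsBounded.bex' (.add (.var 0) (.param 1)) (IsBounded.bex' (.add (.var 1) (.param 1))
      (IsBounded.bex' (.add (.var 2) (.param 1)) (.and (.pair_eq (.var 2) (.var 1) (.var 3))
        (.pair_eq (.var 0) (.var 1) (.var 2)))))
  refine (rec_of_bounded (P := fun z => ∃ a, a < z + 1 ∧ ∃ b, b < z + 1 ∧
      ∃ c, c < z + 1 ∧ (z = pair a b ∧ a = pair c b)) this).congr fun z => ?_
  constructor
  · rintro ⟨a, _, b, _, c, _, rfl, rfl⟩; simp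
  · intro h
    refine ⟨fst z, lt_succ_iff.mpr (fst_le S z), snd z, lt_succ_iff.mpr (snd_le S z),
      fst (fst z), lt_succ_iff.mpr ((fst_le S _).trans (fst_le S z)), ?_, ?_⟩
    · rw [pair_fst_snd S]
    · rw [← h, pair_fst_snd S]

lemma RF.pair' {f g : M → M} (hf : RF S f) (hg : RF S g) : RF S (fun x => pair (f x) (g x)) := by
  have : IsBounded S (fun v : Fin 1 → M => ∃ a, a < v 0 + 1 ∧ ∃ b, b < v 0 + 1 ∧
      ∃ c, c < v 0 + 1 ∧ ∃ d, d < v 0 + 1 ∧ ((v 0 = pair a b ∧ b = pair c d) ∧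
        (pair a c ∈ {z | f (fst z) = snd z} ∧ pair a d ∈ {z | g (fst z) = snd z}))) :=
    IsBounded.bex' (.add (.var 0) (.param 1)) (IsBounded.bex' (.add (.var 1) (.param 1))
      (IsBounded.bex' (.add (.var 2) (.param 1)) (IsBounded.bex' (.add (.var 3) (.param 1))
        (.and (.and (.pair_eq (.var 3) (.var 2) (.var 4)) (.pair_eq (.var 1) (.var 0) (.var 2)))
        (.and (.pair_mem hf (.var 3) (.var 1)) (.pair_mem hg (.var 3) (.var 0)))))))
  refine (rec_of_bounded (P := fun z => ∃ a, a < z + 1 ∧ ∃ b, b < z + 1 ∧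
      ∃ c, c < z + 1 ∧ ∃ d, d < z + 1 ∧ ((z = pair a b ∧ b = pair c d) ∧
        (pair a c ∈ {z | f (fst z) = snd z} ∧ pair a d ∈ {z | g (fst z) = snd z})))
        this).congr fun z => ?_
  constructor
  · rintro ⟨a, _, b, _, c, _, d, _, ⟨rfl, rfl⟩, h1, h2⟩
    rw [mem_of_RF] at h1 h2
    simp [h1, h2]
  · intro h
    refine ⟨fst z, lt_succ_iff.mpr (fst_le S z), snd z, lt_succ_iff.mpr (snd_le S z),
      fst (snd z), lt_succ_iff.mpr ((fst_le S _).trans (snd_le S z)),
      snd (snd z), lt_succ_iff.mpr ((snd_le S _).trans (snd_le S z)), ⟨?_, ?_⟩, ?_, ?_⟩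
    · rw [pair_fst_snd S]
    · rw [pair_fst_snd S]
    · rw [mem_of_RF, ← h]; simp
    · rw [mem_of_RF, ← h]; simp

lemma RF.comp {f g : M → M} (hf : RF S f) (hg : RF S g) : RF S (fun x => f (g x)) := by
  have h1 : IsBounded S (fun v : Fin 2 → M => ∃ a, a < v 0 + 1 ∧ ∃ b, b < v 0 + 1 ∧
      (v 0 = pair a b ∧ (pair a (v 1) ∈ {z | g (fst z) = snd z} ∧
        pair (v 1) b ∈ {z | f (fst z) = snd z}))) :=
    IsBounded.bex' (.add (.var 0) (.param 1)) (IsBounded.bex' (.add (.var 1) (.param 1))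
      (.and (.pair_eq (.var 1) (.var 0) (.var 2)) (.and (.pair_mem hg (.var 1) (.var 3))
        (.pair_mem hf (.var 3) (.var 0)))))
  have h2 : IsBounded S (fun v : Fin 2 → M => ∃ a, a < v 0 + 1 ∧ ∃ b, b < v 0 + 1 ∧
      (v 0 = pair a b ∧ (pair a (v 1) ∈ {z | g (fst z) = snd z} →
        pair (v 1) b ∈ {z | f (fst z) = snd z}))) :=
    IsBounded.bex' (.add (.var 0) (.param 1)) (IsBounded.bex' (.add (.var 1) (.param 1))
      (.and (.pair_eq (.var 1) (.var 0) (.var 2)) (.imp (.pair_mem hg (.var 1) (.var 3))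
        (.pair_mem hf (.var 3) (.var 0)))))
  refine (rec_of_bounded₂ (S := S) (P := fun z y => ∃ a, a < z + 1 ∧ ∃ b, b < z + 1 ∧
      (z = pair a b ∧ (pair a y ∈ {z | g (fst z) = snd z} ∧
        pair y b ∈ {z | f (fst z) = snd z})))
    (Q := fun z y => ∃ a, a < z + 1 ∧ ∃ b, b < z + 1 ∧
      (z = pair a b ∧ (pair a y ∈ {z | g (fst z) = snd z} →
        pair y b ∈ {z | f (fst z) = snd z}))) h1 h2 ?_).congr ?_
  · intro z
    constructor
    · rintro ⟨y, a, ha, b, hb, rfl, h3, h4⟩ y'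
      rw [mem_of_RF] at h3 h4
      refine ⟨a, ha, b, hb, rfl, fun h5 => ?_⟩
      rw [mem_of_RF] at h5 ⊢
      rw [← h5, h3, h4]
    · intro h
      obtain ⟨a, ha, b, hb, rfl, h3⟩ := h (g (fst z))
      exact ⟨g a, a, ha, b, hb, rfl, by rw [mem_of_RF], by
        rw [fst_pair, mem_of_RF, mem_of_RF] at h3
        rw [mem_of_RF]; exact h3 rfl⟩
  · intro z
    constructor
    · rintro ⟨y, a, ha, b, hb, rfl, h3, h4⟩
      rw [mem_of_RF] at h3 h4
      simp [h3, h4]
    · intro h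
      refine ⟨g (fst z), fst z, lt_succ_iff.mpr (fst_le S z), snd z,
        lt_succ_iff.mpr (snd_le S z), (pair_fst_snd S z).symm, ?_, ?_⟩
      · rw [mem_of_RF]
      · rw [mem_of_RF]; exact h

lemma RF.fst {f : M → M} (hf : RF S f) : RF S (fun x => fst (f x)) := RF.comp RF.fst' hf
lemma RF.snd {f : M → M} (hf : RF S f) : RF S (fun x => snd (f x)) := RF.comp RF.snd' hf

lemma RF.add' : RF S (fun x : M => Pool.Agent.RM.fst x + Pool.Agent.RM.snd x) := by
  have : IsBounded S (fun v : Fin 1 → M => ∃ a, a < v 0 + 1 ∧ ∃ b, b < v 0 + 1 ∧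
      ∃ c, c < v 0 + 1 ∧ ∃ d, d < v 0 + 1 ∧ ((v 0 = pair a b ∧ a = pair c d) ∧
        c + d = b)) :=
    IsBounded.bex' (.add (.var 0) (.param 1)) (IsBounded.bex' (.add (.var 1) (.param 1))
      (IsBounded.bex' (.add (.var 2) (.param 1)) (IsBounded.bex' (.add (.var 3) (.param 1))
        (.and (.and (.pair_eq (.var 3) (.var 2) (.var 4)) (.pair_eq (.var 1) (.var 0) (.var 3)))
        (.eq (.add (.var 1) (.var 0)) (.var 2))))))
  refine (rec_of_bounded (P := fun z => ∃ a, a < z + 1 ∧ ∃ b, b < z + 1 ∧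
      ∃ c, c < z + 1 ∧ ∃ d, d < z + 1 ∧ ((z = pair a b ∧ a = pair c d) ∧
        c + d = b)) this).congr fun z => ?_
  constructor
  · rintro ⟨a, _, b, _, c, _, d, _, ⟨rfl, rfl⟩, rfl⟩
    simp
  · intro h
    refine ⟨_, lt_succ_iff.mpr (fst_le S z), _, lt_succ_iff.mpr (snd_le S z),
      _, lt_succ_iff.mpr ((fst_le S _).trans (fst_le S z)),
      _, lt_succ_iff.mpr ((snd_le S _).trans (fst_le S z)), ⟨?_, ?_⟩, h⟩
    · rw [pair_fst_snd S]
    · rw [pair_fst_snd S]

lemma RF.mul' : RF S (fun x : M => Pool.Agent.RM.fst x * Pool.Agent.RM.snd x) := by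
  have : IsBounded S (fun v : Fin 1 → M => ∃ a, a < v 0 + 1 ∧ ∃ b, b < v 0 + 1 ∧
      ∃ c, c < v 0 + 1 ∧ ∃ d, d < v 0 + 1 ∧ ((v 0 = pair a b ∧ a = pair c d) ∧
        c * d = b)) :=
    IsBounded.bex' (.add (.var 0) (.param 1)) (IsBounded.bex' (.add (.var 1) (.param 1))
      (IsBounded.bex' (.add (.var 2) (.param 1)) (IsBounded.bex' (.add (.var 3) (.param 1))
        (.and (.and (.pair_eq (.var 3) (.var 2) (.var 4)) (.pair_eq (.var 1) (.var 0) (.var 3)))
        (.eq (.mul (.var 1) (.var 0)) (.var 2))))))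
  refine (rec_of_bounded (P := fun z => ∃ a, a < z + 1 ∧ ∃ b, b < z + 1 ∧
      ∃ c, c < z + 1 ∧ ∃ d, d < z + 1 ∧ ((z = pair a b ∧ a = pair c d) ∧
        c * d = b)) this).congr fun z => ?_
  constructor
  · rintro ⟨a, _, b, _, c, _, d, _, ⟨rfl, rfl⟩, rfl⟩
    simp
  · intro h
    refine ⟨_, lt_succ_iff.mpr (fst_le S z), _, lt_succ_iff.mpr (snd_le S z),
      _, lt_succ_iff.mpr ((fst_le S _).trans (fst_le S z)),
      _, lt_succ_iff.mpr ((snd_le S _).trans (fst_le S z)), ⟨?_, ?_⟩, h⟩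
    · rw [pair_fst_snd S]
    · rw [pair_fst_snd S]

lemma RF.add {f g : M → M} (hf : RF S f) (hg : RF S g) : RF S (fun x => f x + g x) :=
  (RF.add'.comp (hf.pair' hg)).congr (by simp)

lemma RF.mul {f g : M → M} (hf : RF S f) (hg : RF S g) : RF S (fun x => f x * g x) :=
  (RF.mul'.comp (hf.pair' hg)).congr (by simp)

lemma Rec.eq {f g : M → M} (hf : RF S f) (hg : RF S g) : Rec S (fun x => f x = g x) := by
  have : Rec S (fun z : M => Pool.Agent.RM.fst z = Pool.Agent.RM.snd z) := RF.id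
  exact (this.comp (hf.pair' hg)).congr (by simp)

lemma Rec.lt {f g : M → M} (hf : RF S f) (hg : RF S g) : Rec S (fun x => f x < g x) := by
  have : IsBounded S (fun v : Fin 1 → M => ∃ a, a < v 0 + 1 ∧ ∃ b, b < v 0 + 1 ∧
      (v 0 = pair a b ∧ a < b)) :=
    IsBounded.bex' (.add (.var 0) (.param 1)) (IsBounded.bex' (.add (.var 1) (.param 1))
      (.and (.pair_eq (.var 1) (.var 0) (.var 2)) (.lt (.var 1) (.var 0))))
  have h2 : Rec S (fun z : M => Pool.Agent.RM.fst z < Pool.Agent.RM.snd z) := by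
    refine (rec_of_bounded (P := fun z => ∃ a, a < z + 1 ∧ ∃ b, b < z + 1 ∧
      (z = pair a b ∧ a < b)) this).congr fun z => ?_
    constructor
    · rintro ⟨a, _, b, _, rfl, h⟩; simpa using h
    · intro h
      exact ⟨_, lt_succ_iff.mpr (fst_le S z), _, lt_succ_iff.mpr (snd_le S z),
        (pair_fst_snd S z).symm, h⟩
  exact (h2.comp (hf.pair' hg)).congr (by simp)

lemma Rec.not {P : M → Prop} (hP : Rec S P) : Rec S (fun x => ¬ P x) :=
  rec_of_bounded (P := fun x => ¬ x ∈ {x | P x}) (.not (.mem hP (.var 0)))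

lemma Rec.and {P Q : M → Prop} (hP : Rec S P) (hQ : Rec S Q) : Rec S (fun x => P x ∧ Q x) :=
  rec_of_bounded (P := fun x => x ∈ {x | P x} ∧ x ∈ {x | Q x})
    (.and (.mem hP (.var 0)) (.mem hQ (.var 0)))

lemma Rec.or {P Q : M → Prop} (hP : Rec S P) (hQ : Rec S Q) : Rec S (fun x => P x ∨ Q x) :=
  (hP.not.and hQ.not).not.congr fun x => by tauto

lemma Rec.imp {P Q : M → Prop} (hP : Rec S P) (hQ : Rec S Q) : Rec S (fun x => P x → Q x) :=
  (hP.and hQ.not).not.congr fun x => by tauto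

lemma Rec.iff {P Q : M → Prop} (hP : Rec S P) (hQ : Rec S Q) : Rec S (fun x => P x ↔ Q x) :=
  ((hP.imp hQ).and (hQ.imp hP)).congr fun x => by tauto

lemma Rec.le {f g : M → M} (hf : RF S f) (hg : RF S g) : Rec S (fun x => f x ≤ g x) :=
  (Rec.lt hg hf).not.congr fun x => not_lt

lemma Rec.mem {f : M → M} {X : Set M} (hX : X ∈ S) (hf : RF S f) : Rec S (fun x => f x ∈ X) :=
  Rec.comp (P := fun x => x ∈ X) hX hf

/-- bounded universal quantification -/
lemma Rec.ball {P : M → M → Prop} {f : M → M}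
    (hP : Rec S (fun z => P (Pool.Agent.RM.fst z) (Pool.Agent.RM.snd z))) (hf : RF S f) :
    Rec S (fun x => ∀ y, y < f x → P x y) := by
  have h1 : IsBounded S (fun v : Fin 2 → M => pair (v 0) (v 1) ∈
      {z : M | f (Pool.Agent.RM.fst z) = Pool.Agent.RM.snd z} ∧
      ∀ a, a < v 1 → pair (v 0) a ∈ {z : M | P (Pool.Agent.RM.fst z) (Pool.Agent.RM.snd z)}) :=
    (IsBounded.pair_mem hf (.var 0) (.var 1)).and (IsBounded.ball' (.var 1)
      (.pair_mem hP (.var 1) (.var 0)))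
  have h2 : IsBounded S (fun v : Fin 2 → M => pair (v 0) (v 1) ∈
      {z : M | f (Pool.Agent.RM.fst z) = Pool.Agent.RM.snd z} →
      ∀ a, a < v 1 → pair (v 0) a ∈ {z : M | P (Pool.Agent.RM.fst z) (Pool.Agent.RM.snd z)}) :=
    (IsBounded.pair_mem hf (.var 0) (.var 1)).imp (IsBounded.ball' (.var 1)
      (.pair_mem hP (.var 1) (.var 0)))
  refine (rec_of_bounded₂ (S := S) (P := fun x y => pair x y ∈
      {z : M | f (Pool.Agent.RM.fst z) = Pool.Agent.RM.snd z} ∧
      ∀ a, a < y → pair x a ∈ {z : M | P (Pool.Agent.RM.fst z) (Pool.Agent.RM.snd z)})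
    (Q := fun x y => pair x y ∈
      {z : M | f (Pool.Agent.RM.fst z) = Pool.Agent.RM.snd z} →
      ∀ a, a < y → pair x a ∈ {z : M | P (Pool.Agent.RM.fst z) (Pool.Agent.RM.snd z)})
      h1 h2 ?_).congr ?_
  · intro x; simp
  · intro x; simp

lemma Rec.bex {P : M → M → Prop} {f : M → M}
    (hP : Rec S (fun z => P (Pool.Agent.RM.fst z) (Pool.Agent.RM.snd z))) (hf : RF S f) :
    Rec S (fun x => ∃ y, y < f x ∧ P x y) :=
  (Rec.ball (P := fun x y => ¬ P x y) hP.not hf).not.congr fun x => by push Not; rfl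

/-! ### r.e. predicates -/

lemma Rec.re {P : M → Prop} (hP : Rec S P) : RE S P :=
  ⟨{z | P (Pool.Agent.RM.fst z)}, Rec.comp hP RF.fst', fun z => by simp⟩

lemma RE.intro {P : M → Prop} {Q : M → M → Prop}
    (hQ : Rec S (fun z => Q (Pool.Agent.RM.fst z) (Pool.Agent.RM.snd z)))
    (h : ∀ x, P x ↔ ∃ y, Q x y) : RE S P :=
  ⟨_, hQ, fun z => by rw [h]; simp⟩

lemma RE.elim {P : M → Prop} (hP : RE S P) : ∃ Q : M → M → Prop,
    Rec S (fun z => Q (Pool.Agent.RM.fst z) (Pool.Agent.RM.snd z)) ∧ ∀ x, P x ↔ ∃ y, Q x y := by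
  obtain ⟨X, hX, h⟩ := hP
  refine ⟨fun x y => pair x y ∈ X, ?_, h⟩
  have : (fun z : M => pair (Pool.Agent.RM.fst z) (Pool.Agent.RM.snd z) ∈ X) = fun z => z ∈ X := by
    funext z; rw [pair_fst_snd S]
  rw [this]
  exact hX

/-- substitution for a binary recursive predicate -/
lemma Rec.comp₂ {P : M → M → Prop} {f g : M → M}
    (hP : Rec S (fun z => P (Pool.Agent.RM.fst z) (Pool.Agent.RM.snd z)))
    (hf : RF S f) (hg : RF S g) : Rec S (fun x => P (f x) (g x)) :=
  (hP.comp (hf.pair' hg)).congr (by simp)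

lemma RE.and {P Q : M → Prop} (hP : RE S P) (hQ : RE S Q) : RE S (fun x => P x ∧ Q x) := by
  obtain ⟨P', hP', h⟩ := hP.elim
  obtain ⟨Q', hQ', h'⟩ := hQ.elim
  refine RE.intro (Q := fun x y => P' x (Pool.Agent.RM.fst y) ∧ Q' x (Pool.Agent.RM.snd y))
    ((hP'.comp₂ RF.fst' (RF.fst RF.snd')).and (hQ'.comp₂ RF.fst' (RF.snd RF.snd'))) ?_
  intro x
  rw [h, h']
  constructor
  · rintro ⟨⟨y, hy⟩, z, hz⟩; exact ⟨pair y z, by simpa using ⟨hy, hz⟩⟩
  · rintro ⟨y, h1, h2⟩; exact ⟨⟨_, h1⟩, _, h2⟩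

lemma RE.or {P Q : M → Prop} (hP : RE S P) (hQ : RE S Q) : RE S (fun x => P x ∨ Q x) := by
  obtain ⟨P', hP', h⟩ := hP.elim
  obtain ⟨Q', hQ', h'⟩ := hQ.elim
  refine RE.intro (Q := fun x y => P' x y ∨ Q' x y) (hP'.or hQ') ?_
  intro x
  rw [h, h', exists_or]

lemma RE.ex {P : M → M → Prop}
    (hP : RE S (fun z => P (Pool.Agent.RM.fst z) (Pool.Agent.RM.snd z))) :
    RE S (fun x => ∃ y, P x y) := by
  obtain ⟨P', hP', h⟩ := hP.elim
  refine RE.intro (Q := fun x y => P' (pair x (Pool.Agent.RM.fst y)) (Pool.Agent.RM.snd y))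
    (hP'.comp₂ (RF.pair' RF.fst' (RF.fst RF.snd')) (RF.snd RF.snd')) ?_
  intro x
  constructor
  · rintro ⟨y, hy⟩
    have := (h (pair x y)).mp (by simpa using hy)
    obtain ⟨z, hz⟩ := this
    exact ⟨pair y z, by simpa using hz⟩
  · rintro ⟨y, hy⟩
    have := (h _).mpr ⟨_, hy⟩
    exact ⟨_, by simpa using this⟩

lemma RE.comp {P : M → Prop} {f : M → M} (hP : RE S P) (hf : RF S f) :
    RE S (fun x => P (f x)) := by
  obtain ⟨P', hP', h⟩ := hP.elim
  exact RE.intro (Q := fun x y => P' (f x) y) (hP'.comp₂ (hf.comp RF.fst') RF.snd')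
    fun x => h (f x)

/-- substitution for a binary r.e. predicate -/
lemma RE.comp₂ {P : M → M → Prop} {f g : M → M}
    (hP : RE S (fun z => P (Pool.Agent.RM.fst z) (Pool.Agent.RM.snd z)))
    (hf : RF S f) (hg : RF S g) : RE S (fun x => P (f x) (g x)) :=
  (hP.comp (hf.pair' hg)).congr (by simp)

/-- A predicate which is r.e. and whose negation is r.e. is recursive. -/
lemma Rec.of_re {P : M → Prop} (hP : RE S P) (hP' : RE S (fun x => ¬ P x)) : Rec S P := by
  obtain ⟨X, hX, h⟩ := hP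
  obtain ⟨Y, hY, h'⟩ := hP'
  refine (rec_of_bounded₂ (S := S) (P := fun x y => pair x y ∈ X)
    (Q := fun x y => ¬ pair x y ∈ Y) (.pair_mem hX (.var 0) (.var 1))
    (.not (.pair_mem hY (.var 0) (.var 1))) ?_).congr ?_
  · intro x
    rw [← h]
    have := h' x
    rw [not_iff_comm] at this
    rw [← this]
    push Not
    rfl
  · intro x
    exact (h x).symm

/-- `Σ⁰₁` induction -/
lemma RE.induction {P : M → Prop} (hP : RE S P) (h0 : P 0) (hs : ∀ x, P x → P (x + 1)) :
    ∀ x, P x := by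
  obtain ⟨X, hX, h⟩ := hP
  have := hS.out.sigma_one_induction (fun v => pair (v 0) (v 1) ∈ X)
    (.pair_mem hX (.var 0) (.var 1)) (by simpa using (h 0).mp h0)
    (by
      intro x hx
      simp only [Matrix.cons_val_zero, Matrix.cons_val_one] at hx ⊢
      exact (h _).mp (hs x ((h x).mpr hx)))
  intro x
  exact (h x).mpr (by simpa using this x)

lemma Rec.induction {P : M → Prop} (hP : Rec S P) (h0 : P 0) (hs : ∀ x, P x → P (x + 1)) :
    ∀ x, P x := hP.re.induction h0 hs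

/-- `Σ⁰₁` collection -/
lemma RE.collection {P : M → M → Prop}
    (hP : Rec S (fun z => P (Pool.Agent.RM.fst z) (Pool.Agent.RM.snd z))) (b : M)
    (h : ∀ x, x < b → ∃ y, P x y) : ∃ u, ∀ x, x < b → ∃ y, y < u ∧ P x y := by
  have key : ∀ c, ∃ u, ∀ x, x < c → x < b → ∃ y, y < u ∧ P x y := by
    have : RE S (fun c => ∃ u, ∀ x, x < c → x < b → ∃ y, y < u ∧ P x y) := by
      refine RE.intro (Q := fun c u => ∀ x, x < c → x < b → ∃ y, y < u ∧ P x y) ?_ (fun _ => Iff.rfl)
      refine Rec.ball (P := fun z x => x < b → ∃ y, y < Pool.Agent.RM.snd z ∧ P x y) ?_ RF.fst'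
      refine (Rec.lt RF.snd' (RF.const b)).imp ?_
      exact Rec.bex (P := fun z y => P (Pool.Agent.RM.snd z) y)
        (hP.comp₂ (RF.snd RF.fst') RF.snd') (RF.snd RF.fst')
    refine this.induction ⟨0, fun x hx => absurd hx (not_lt.mpr (zero_le'' x))⟩ ?_
    rintro c ⟨u, hu⟩
    by_cases hc : c < b
    · obtain ⟨y, hy⟩ := h c hc
      refine ⟨u + y + 1, fun x hx hxb => ?_⟩
      rw [lt_succ_iff] at hx
      rcases hx.lt_or_eq with hx | rfl
      · obtain ⟨y', hy', h2⟩ := hu x hx hxb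
        exact ⟨y', hy'.trans_le ((le_add_r u y).trans (le_add_r _ _)), h2⟩
      · exact ⟨y, lt_succ_iff.mpr (le_add_l u y), hy⟩
    · refine ⟨u, fun x hx hxb => hu x ?_ hxb⟩
      exact lt_of_lt_of_le hxb (not_lt.mp hc)
  obtain ⟨u, hu⟩ := key b
  exact ⟨u, fun x hx => hu x hx hx⟩

/-- bounded universal quantification of an r.e. predicate -/
lemma RE.ball {P : M → M → Prop} {f : M → M}
    (hP : RE S (fun z => P (Pool.Agent.RM.fst z) (Pool.Agent.RM.snd z))) (hf : RF S f) :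
    RE S (fun x => ∀ y, y < f x → P x y) := by
  obtain ⟨P', hP', h⟩ := hP.elim
  refine RE.intro (Q := fun x u => ∀ y, y < f x → ∃ v, v < u ∧ P' (pair x y) v) ?_ ?_
  · refine Rec.ball (P := fun z y => ∃ v, v < Pool.Agent.RM.snd z ∧
      P' (pair (Pool.Agent.RM.fst z) y) v) ?_ (hf.comp RF.fst')
    exact Rec.bex (P := fun z v => P' (pair (Pool.Agent.RM.fst (Pool.Agent.RM.fst z))
      (Pool.Agent.RM.snd z)) v) (hP'.comp₂ ((RF.fst (RF.fst RF.fst')).pair' (RF.snd RF.fst'))
        RF.snd') (RF.snd RF.fst')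
  · intro x
    constructor
    · intro hx
      refine RE.collection (S := S) (P := fun y v => P' (pair x y) v)
        (hP'.comp₂ ((RF.const x).pair' RF.fst') RF.snd') (f x) ?_
      intro y hy
      exact (h (pair x y)).mp (by simpa using hx y hy)
    · rintro ⟨u, hu⟩ y hy
      obtain ⟨v, _, hv⟩ := hu y hy
      have := (h (pair x y)).mpr ⟨v, hv⟩
      simpa using this

lemma RE.bex {P : M → M → Prop} {f : M → M}
    (hP : RE S (fun z => P (Pool.Agent.RM.fst z) (Pool.Agent.RM.snd z))) (hf : RF S f) :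
    RE S (fun x => ∃ y, y < f x ∧ P x y) :=
  RE.ex (P := fun x y => y < f x ∧ P x y) ((Rec.lt RF.snd' (hf.comp RF.fst')).re.and hP)

/-- a recursive function, from an r.e. description of its graph -/
lemma RF.of_re {f : M → M} (h : RE S (fun z => f (Pool.Agent.RM.fst z) = Pool.Agent.RM.snd z)) :
    RF S f := by
  refine Rec.of_re h ?_
  refine (RE.ex (P := fun z y => f (Pool.Agent.RM.fst z) = y ∧ y ≠ Pool.Agent.RM.snd z)
    ((RE.comp₂ (P := fun x y => f x = y) h (RF.fst RF.fst') RF.snd').and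
      (Rec.eq RF.snd' (RF.snd RF.fst')).not.re)).congr ?_
  intro z
  simp

/-! ### Least number principles -/

/-- every non-empty co-r.e. class has a least element -/
lemma RE.least_not {P : M → Prop} (hP : RE S P) {a : M} (ha : ¬ P a) :
    ∃ m, ¬ P m ∧ ∀ x, x < m → P x := by
  by_contra hcon
  push Not at hcon
  have : RE S (fun x => ∀ y, y < x → P y) :=
    RE.ball (P := fun _ y => P y) (hP.comp RF.snd') RF.id
  have key := this.induction (fun y hy => absurd hy (not_lt.mpr (zero_le'' y))) (by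
    intro x hx y hy
    rw [lt_succ_iff] at hy
    rcases hy.lt_or_eq with hy | rfl
    · exact hx y hy
    · by_contra hn
      obtain ⟨z, hz, hz'⟩ := hcon y hn
      exact hz' (hx z hz))
  exact ha (key (a + 1) a (lt_succ_self' a))

/-- `Π⁰₁` induction -/
lemma RE.co_induction {P : M → Prop} (hP : RE S (fun x => ¬ P x)) (h0 : P 0)
    (hs : ∀ x, P x → P (x + 1)) : ∀ x, P x := by
  intro b
  by_contra hb
  have : RE S (fun k => ∀ i, i < b + 1 → i + k = b → ¬ P i) := by
    have h1 : RE S (fun k => ∀ i, i < b + 1 → (¬ (i + k = b) ∨ ¬ P i)) :=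
      RE.ball (P := fun k i => ¬ (i + k = b) ∨ ¬ P i)
        ((Rec.eq (RF.add RF.snd' RF.fst') (RF.const b)).not.re.or (hP.comp RF.snd')) (RF.const _)
    exact h1.congr fun k => by
      constructor
      · intro h i hi he hPi
        rcases h i hi with h | h
        · exact h he
        · exact h hPi
      · intro h i hi
        by_cases he : i + k = b
        · exact Or.inr (h i hi he)
        · exact Or.inl he
  have key := this.induction (fun i _ he => by rw [add_zero] at he; rw [he]; exact hb) (by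
    intro k hk i hi he hPi
    have h1 : i + 1 + k = b := by rw [← he]; ring
    have h2 : i + 1 < b + 1 := by
      rw [lt_succ_iff, ← h1]
      exact le_add_r _ _
    exact hk (i + 1) h2 h1 (hs i hPi))
  exact key b 0 (lt_of_le_of_lt (zero_le'' b) (lt_succ_self' b)) (by simp) h0

/-- every non-empty r.e. class has a least element -/
lemma RE.least {P : M → Prop} (hP : RE S P) {a : M} (ha : P a) :
    ∃ m, P m ∧ ∀ x, x < m → ¬ P x := by
  by_contra hcon
  push Not at hcon
  have : RE S (fun x => ¬ ∀ y, y < x → ¬ P y) := by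
    refine (RE.bex (P := fun _ y => P y) (hP.comp RF.snd') RF.id).congr fun x => ?_
    push Not
    rfl
  have key := this.co_induction (fun y hy => absurd hy (not_lt.mpr (zero_le'' y))) (by
    intro x hx y hy
    rw [lt_succ_iff] at hy
    rcases hy.lt_or_eq with hy | rfl
    · exact hx y hy
    · intro hn
      obtain ⟨z, hz, hz'⟩ := hcon y hn
      exact (hx z hz) hz')
  exact key (a + 1) a (lt_succ_self' a) ha

/-- complete `Σ⁰₁` induction -/
lemma RE.strong_induction {P : M → Prop} (hP : RE S P) (h : ∀ x, (∀ y, y < x → P y) → P x) :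
    ∀ x, P x := by
  intro x
  by_contra hx
  obtain ⟨m, hm, hm'⟩ := hP.least_not hx
  exact hm (h m hm')

end Pool.Agent.RM
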