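import Mathlib

set_option autoImplicit false

/-!
# Models of the subsystem RCA₀ of second-order arithmetic

A structure for the language of second-order arithmetic is given by its number part `M`
(with `0`, `1`, `+`, `*`, `<`) and a collection `S` of subsets of `M` over which the set
variables range.
-/

namespace Pool.Agent.RM

variable {M : Type*} [Zero M] [One M] [Add M] [Mul M] [LT M]

/-- `IsTerm t`: the function `t` of `n` number variables is given by a numerical term of the
language of second-order arithmetic, with parameters from `M`. -/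
inductive IsTerm : {n : ℕ} → ((Fin n → M) → M) → Prop
  | var {n : ℕ} (i : Fin n) : IsTerm (fun v => v i)
  | param {n : ℕ} (a : M) : IsTerm (fun _ : Fin n → M => a)
  | add {n : ℕ} {s t : (Fin n → M) → M} : IsTerm s → IsTerm t → IsTerm (fun v => s v + t v)
  | mul {n : ℕ} {s t : (Fin n → M) → M} : IsTerm s → IsTerm t → IsTerm (fun v => s v * t v)

/-- `IsBounded S P`: the relation `P` on `n` numbers is defined by a bounded (that is, `Σ⁰₀`)
formula of the language of second-order arithmetic, with number parameters from `M` and set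
parameters from `S`. -/
inductive IsBounded (S : Set (Set M)) : {n : ℕ} → ((Fin n → M) → Prop) → Prop
  | eq {n : ℕ} {s t : (Fin n → M) → M} : IsTerm s → IsTerm t →
      IsBounded S (fun v => s v = t v)
  | lt {n : ℕ} {s t : (Fin n → M) → M} : IsTerm s → IsTerm t →
      IsBounded S (fun v => s v < t v)
  | mem {n : ℕ} {t : (Fin n → M) → M} {X : Set M} : X ∈ S → IsTerm t →
      IsBounded S (fun v => t v ∈ X)
  | not {n : ℕ} {P : (Fin n → M) → Prop} : IsBounded S P → IsBounded S (fun v => ¬ P v)
  | and {n : ℕ} {P Q : (Fin n → M) → Prop} : IsBounded S P → IsBounded S Q →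
      IsBounded S (fun v => P v ∧ Q v)
  | ball {n : ℕ} {t : (Fin n → M) → M} {P : (Fin (n + 1) → M) → Prop} :
      IsTerm t → IsBounded S P → IsBounded S (fun v => ∀ a, a < t v → P (Fin.cons a v))

variable (M) in
/-- `(M, S)` is a model of RCA₀: it satisfies the basic axioms, the `Σ⁰₁` induction scheme and
the `Δ⁰₁` comprehension scheme (with number and set parameters). -/
structure IsModelRCA0 (S : Set (Set M)) : Prop where
  succ_ne_zero : ∀ n : M, n + 1 ≠ 0
  succ_inj : ∀ m n : M, m + 1 = n + 1 → m = n
  add_zero : ∀ m : M, m + 0 = m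
  add_succ : ∀ m n : M, m + (n + 1) = (m + n) + 1
  mul_zero : ∀ m : M, m * 0 = 0
  mul_succ : ∀ m n : M, m * (n + 1) = m * n + m
  not_lt_zero : ∀ m : M, ¬ m < 0
  lt_succ : ∀ m n : M, m < n + 1 ↔ (m < n ∨ m = n)
  /-- the `Σ⁰₁` induction scheme -/
  sigma_one_induction : ∀ P : (Fin 2 → M) → Prop, IsBounded S P →
    (∃ y, P ![0, y]) → (∀ x, (∃ y, P ![x, y]) → ∃ y, P ![x + 1, y]) → ∀ x, ∃ y, P ![x, y]
  /-- the `Δ⁰₁` comprehension scheme -/
  delta_one_comprehension : ∀ P Q : (Fin 2 → M) → Prop, IsBounded S P → IsBounded S Q →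
    (∀ x, (∃ y, P ![x, y]) ↔ ∀ y, Q ![x, y]) → {x | ∃ y, P ![x, y]} ∈ S

/-! ### Coding of pairs, finite sets and modal formulas by numbers -/

open Classical in
/-- The pairing function, a bijection `M × M → M` in every model of RCA₀. -/
noncomputable def pair (a b : M) : M := if a < b then b * b + a else a * a + a + b

/-- `Mem i s`: the number `i` is an element of the finite set coded by the number `s`. Here
`⟨k, ⟨m, n⟩⟩` codes the set of the `i < k` such that `m (i + 1) + 1` divides `n`. -/
def Mem (i s : M) : Prop :=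
  ∃ k m n : M, s = pair k (pair m n) ∧ i < k ∧ ∃ c, n = (m * (i + 1) + 1) * c

variable (M) in
/-- the number `4` -/
def four : M := 1 + 1 + 1 + 1
/-- (the code of) the formula `⊥` -/
def bot : M := 0
/-- (the code of) the `i`-th propositional variable, `4 i + 1` -/
def pvar (i : M) : M := four M * i + 1
/-- (the code of) the `i`-th propositional constant, `4 i + 2` -/
def pcst (i : M) : M := four M * i + (1 + 1)
/-- (the code of) the formula `a → b`, `4 ⟨a, b⟩ + 3` -/
noncomputable def imp (a b : M) : M := four M * pair a b + (1 + 1 + 1)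
/-- (the code of) the formula `□ a`, `4 a + 4` -/
def box (a : M) : M := four M * a + four M
/-- (the code of) the formula `¬ a` -/
noncomputable def neg (a : M) : M := imp a bot
/-- (the code of) the formula `◇ a` -/
noncomputable def dia (a : M) : M := neg (box (neg a))

/-- The axioms of `S4.2`, in the variables `p = pvar 0`, `q = pvar 1`, `r = pvar (1 + 1)`: three
propositional axioms, the axiom `K`, and `T`, `4`, `.2`. -/
def IsAxiom (θ : M) : Prop :=
  θ = imp (pvar 0) (imp (pvar 1) (pvar 0)) ∨
  θ = imp (imp (pvar 0) (imp (pvar 1) (pvar (1 + 1))))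
        (imp (imp (pvar 0) (pvar 1)) (imp (pvar 0) (pvar (1 + 1)))) ∨
  θ = imp (neg (neg (pvar 0))) (pvar 0) ∨
  θ = imp (box (imp (pvar 0) (pvar 1))) (imp (box (pvar 0)) (box (pvar 1))) ∨
  θ = imp (box (pvar 0)) (pvar 0) ∨
  θ = imp (box (pvar 0)) (box (box (pvar 0))) ∨
  θ = imp (dia (box (pvar 0))) (box (dia (pvar 0)))

/-- `f` codes a finite partial map from formulas to formulas, whose domain is closed under
immediate subformulas, and which is the restriction of a uniform substitution (it commutes with
the connectives, and is arbitrary on the propositional variables). -/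
def IsSubst (f : M) : Prop :=
  (∀ x y y' : M, Mem (pair x y) f → Mem (pair x y') f → y = y') ∧
  (∀ y : M, Mem (pair bot y) f → y = bot) ∧
  (∀ i y : M, Mem (pair (pcst i) y) f → y = pcst i) ∧
  (∀ a b y : M, Mem (pair (imp a b) y) f →
    ∃ a' b', Mem (pair a a') f ∧ Mem (pair b b') f ∧ y = imp a' b') ∧
  (∀ a y : M, Mem (pair (box a) y) f → ∃ a', Mem (pair a a') f ∧ y = box a')

/-- `θ` is obtained from `η` by a uniform substitution. -/
def SubstInst (η θ : M) : Prop := ∃ f, IsSubst f ∧ Mem (pair η θ) f

/-- `d` codes a derivation in `S4.2`: a finite set of pairs (line number, formula) in which every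
formula is an axiom or follows from formulas on lines with smaller numbers by modus ponens,
necessitation or uniform substitution. -/
def IsDerivation (d : M) : Prop :=
  ∀ i θ : M, Mem (pair i θ) d →
    IsAxiom θ ∨
    (∃ j k η, j < i ∧ k < i ∧ Mem (pair j η) d ∧ Mem (pair k (imp η θ)) d) ∨
    (∃ j η, j < i ∧ Mem (pair j η) d ∧ θ = box η) ∨
    (∃ j η, j < i ∧ Mem (pair j η) d ∧ SubstInst η θ)

/-- `θ` is provable in `S4.2`, as formalised in the model. -/
def Provable (θ : M) : Prop := ∃ d i, IsDerivation d ∧ Mem (pair i θ) d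

/-- `ψ` is a subformula of `φ`: it belongs to every finite set of formulas which contains `φ` and
is closed under immediate subformulas. -/
def IsSub (φ ψ : M) : Prop :=
  ∀ s : M, Mem φ s → (∀ a b, Mem (imp a b) s → Mem a s ∧ Mem b s) →
    (∀ a, Mem (box a) s → Mem a s) → Mem ψ s

/-- `(W, R, V)` is, in the model `(M, S)`, a weak Kripke model of `φ`. The relation `R` is a set
of (coded) pairs, and `V(w, ψ) = 1` means `⟨w, ψ⟩ ∈ V`. -/
structure IsWeakKripkeModel (S : Set (Set M)) (φ : M) (W R V : Set M) : Prop where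
  W_mem : W ∈ S
  R_mem : R ∈ S
  V_mem : V ∈ S
  nonempty : W.Nonempty
  R_sub : ∀ z ∈ R, ∃ w ∈ W, ∃ v ∈ W, z = pair w v
  val_bot : ∀ w ∈ W, IsSub φ bot → pair w bot ∉ V
  val_imp : ∀ w ∈ W, ∀ ψ θ, IsSub φ (imp ψ θ) →
    (pair w (imp ψ θ) ∈ V ↔ (pair w ψ ∈ V → pair w θ ∈ V))
  val_box : ∀ w ∈ W, ∀ ψ, IsSub φ (box ψ) →
    (pair w (box ψ) ∈ V ↔ ∀ v, pair w v ∈ R → pair v ψ ∈ V)

/-- `(W, R)` is an `S4.2`-frame: `R` is reflexive, transitive and directed. -/
structure IsS42Frame (W R : Set M) : Prop where
  refl : ∀ w ∈ W, pair w w ∈ R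
  trans : ∀ u v w, pair u v ∈ R → pair v w ∈ R → pair u w ∈ R
  directed : ∀ w u v, pair w u ∈ R → pair w v ∈ R → ∃ s, pair u s ∈ R ∧ pair v s ∈ R

variable (M) in
/-- The Weak Completeness Theorem for `S4.2`, interpreted in `(M, S)`: every `S4.2`-consistent
formula is true at some point of a weak Kripke model on an `S4.2`-frame. -/
def WeakCompletenessS42 (S : Set (Set M)) : Prop :=
  ∀ φ : M, ¬ Provable (neg φ) →
    ∃ W R V : Set M, IsWeakKripkeModel S φ W R V ∧ IsS42Frame W R ∧ ∃ w ∈ W, pair w φ ∈ V

end Pool.Agent.RM
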