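import Pool.Agent.RM.Calc

set_option autoImplicit false
set_option linter.unusedSimpArgs false
set_option linter.unusedSectionVars false

/-!
# Finite sets coded by numbers: bounded `Σ⁰₁` comprehension
-/

namespace Pool.Agent.RM

variable {M : Type*} [CommSemiring M] [LinearOrder M] [Disc M]

lemma dvd_of_dvd_add {a b c : M} (h : c ∣ a + b) (h' : c ∣ a) : c ∣ b := by
  obtain ⟨u, hu⟩ := h
  obtain ⟨v, rfl⟩ := h'
  by_cases hc : c = 0
  · subst hc
    simp only [zero_mul, zero_add] at hu
    rw [hu]
  · have hv : v ≤ u := by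
      have : c * v ≤ c * u := by rw [← hu]; exact le_add_r _ _
      exact le_of_mul_le_mul_left this (pos_iff.mpr hc)
    obtain ⟨w, rfl⟩ := Disc.exists_add _ _ hv
    rw [mul_add] at hu
    exact ⟨w, add_left_cancel hu⟩

lemma le_of_dvd' {a b : M} (hb : b ≠ 0) (h : a ∣ b) : a ≤ b := by
  obtain ⟨c, rfl⟩ := h
  rcases eq_zero_or_succ c with rfl | ⟨d, rfl⟩
  · simp at hb
  · have h1 := zero_le'' a
    have h2 := zero_le'' d
    simp only [tr_le, map_add, map_zero, map_mul, map_one] at *
    nlinarith

lemma dvd_cancel {n a t : M} (hn : 0 < n) (h : n * a ∣ n * t) : a ∣ t := by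
  obtain ⟨c, hc⟩ := h
  refine ⟨c, ?_⟩
  apply le_antisymm
  · apply le_of_mul_le_mul_left _ hn
    rw [hc, mul_assoc]
  · apply le_of_mul_le_mul_left _ hn
    rw [hc, mul_assoc]

lemma dvd_iff_bounded {a b : M} : a ∣ b ↔ ∃ c, c < b + 1 ∧ b = a * c := by
  constructor
  · rintro ⟨c, rfl⟩
    by_cases ha : a = 0
    · subst ha
      exact ⟨0, by simp [lt_succ_self'], by simp⟩
    · refine ⟨c, ?_, rfl⟩
      rw [lt_succ_iff]
      have h1 := one_le_iff.mpr ha
      have h2 := zero_le'' c
      simp only [tr_le, map_add, map_zero, map_mul, map_one] at *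
      nlinarith
  · rintro ⟨c, _, h⟩
    exact ⟨c, h⟩

variable {S : Set (Set M)} [hS : IsRCA S]

lemma Rec.dvd {f g : M → M} (hf : RF S f) (hg : RF S g) : Rec S (fun x => f x ∣ g x) := by
  refine (Rec.bex (P := fun x c => g x = f x * c) (f := fun x => g x + 1) ?_
    (hg.add (RF.const 1))).congr fun x => dvd_iff_bounded.symm
  exact Rec.eq (hg.comp RF.fst') ((hf.comp RF.fst').mul RF.snd')

/-- common multiples of finitely many positive numbers -/
lemma exists_common_multiple {f : M → M} (hf : RF S f) (hpos : ∀ i, 0 < f i) (b : M) :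
    ∃ N, 0 < N ∧ ∀ i, i < b → f i ∣ N := by
  have : RE S (fun b => ∃ N, 0 < N ∧ ∀ i, i < b → f i ∣ N) := by
    refine RE.intro (Q := fun b N => 0 < N ∧ ∀ i, i < b → f i ∣ N) ?_ (fun _ => Iff.rfl)
    refine (Rec.lt (RF.const 0) RF.snd').and ?_
    exact Rec.ball (P := fun z i => f i ∣ snd z)
      (Rec.dvd (hf.comp RF.snd') (RF.snd RF.fst')) RF.fst'
  refine this.induction ⟨1, one_pos_of_disc, fun i hi => absurd hi (not_lt.mpr (zero_le'' i))⟩ ?_ b
  rintro c ⟨N, hN, h⟩
  refine ⟨N * f c, mul_pos hN (hpos c), fun i hi => ?_⟩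
  rw [lt_succ_iff] at hi
  rcases hi.lt_or_eq with hi | rfl
  · exact (h i hi).mul_right _
  · exact Dvd.intro_left _ rfl
where
  one_pos_of_disc : (0 : M) < 1 := by
    rw [pos_iff]; exact one_ne_zero

/-- the moduli used in the coding of finite sets -/
def modulus (m i : M) : M := m * (i + 1) + 1

lemma bezout_of_lt {b m i j : M} (hm : ∀ c, c < b → (c + 1) ∣ m) (hij : i < j) (hj : j < b) :
    ∃ A B, modulus m i * A + 1 = modulus m i + modulus m j * B := by
  obtain ⟨d, hd⟩ := Disc.exists_add _ _ ((Disc.discrete i j).mp hij)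
  have hdb : d < b := by
    refine lt_of_le_of_lt ?_ hj
    rw [hd]; exact le_add_l _ _
  obtain ⟨t, ht⟩ := hm d hdb
  refine ⟨t * (i + 1) * (j + 1), t * (i + 1) * (i + 1), ?_⟩
  unfold modulus
  subst hd ht
  ring

lemma bezout {b m i j : M} (hm : ∀ c, c < b → (c + 1) ∣ m) (hij : i ≠ j) (hi : i < b)
    (hj : j < b) : ∃ A B, modulus m i * A + 1 = modulus m i + modulus m j * B ∨
      modulus m j * A + 1 = modulus m j + modulus m i * B := by
  rcases hij.lt_or_gt with h | h
  · obtain ⟨A, B, hAB⟩ := bezout_of_lt hm h hj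
    exact ⟨A, B, Or.inl hAB⟩
  · obtain ⟨A, B, hAB⟩ := bezout_of_lt hm h hi
    exact ⟨A, B, Or.inr hAB⟩

lemma dvd_of_dvd_mul_modulus {b m i j n : M} (hm : ∀ c, c < b → (c + 1) ∣ m) (hij : i ≠ j)
    (hi : i < b) (hj : j < b) (h : modulus m j ∣ modulus m i * n) : modulus m j ∣ n := by
  obtain ⟨A, B, hAB | hAB⟩ := bezout hm hij hi hj
  · have e : modulus m i * A * n + n = modulus m i * n + modulus m j * B * n := by
      calc modulus m i * A * n + n = (modulus m i * A + 1) * n := by ring
        _ = _ := by rw [hAB]; ring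
    refine dvd_of_dvd_add (a := modulus m i * A * n) ?_ ?_
    · rw [e]
      exact dvd_add h (Dvd.intro _ (by ring : modulus m j * (B * n) = _))
    · have : modulus m i * A * n = (modulus m i * n) * A := by ring
      rw [this]
      exact h.mul_right _
  · have e : modulus m j * A * n + n = modulus m j * n + (modulus m i * n) * B := by
      calc modulus m j * A * n + n = (modulus m j * A + 1) * n := by ring
        _ = _ := by rw [hAB]; ring
    refine dvd_of_dvd_add (a := modulus m j * A * n) ?_ ?_
    · rw [e]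
      exact dvd_add (Dvd.intro _ rfl) (h.mul_right _)
    · exact Dvd.intro _ (by ring : modulus m j * (A * n) = _)

lemma mul_modulus_dvd {b m i j t : M} (hm : ∀ c, c < b → (c + 1) ∣ m) (hij : i ≠ j)
    (hi : i < b) (hj : j < b) (h : modulus m i ∣ t) (h' : modulus m j ∣ t) :
    modulus m j * modulus m i ∣ t := by
  obtain ⟨u, hu⟩ := h
  obtain ⟨v, hv⟩ := h'
  obtain ⟨A, B, hAB | hAB⟩ := bezout hm hij hi hj
  · have e : modulus m i * A * t + t = modulus m i * t + modulus m j * B * t := by
      calc modulus m i * A * t + t = (modulus m i * A + 1) * t := by ring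
        _ = _ := by rw [hAB]; ring
    have e1 : modulus m i * A * t = (modulus m j * modulus m i) * (A * v) := by
      rw [hv]; ring
    have e2 : modulus m i * t + modulus m j * B * t =
        (modulus m j * modulus m i) * (v + B * u) := by
      calc modulus m i * t + modulus m j * B * t =
          modulus m i * (modulus m j * v) + modulus m j * B * (modulus m i * u) := by
            rw [← hv, ← hu]
        _ = _ := by ring
    refine dvd_of_dvd_add (a := modulus m i * A * t) ?_ ?_
    · rw [e, e2]; exact Dvd.intro _ rfl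
    · rw [e1]; exact Dvd.intro _ rfl
  · have e : modulus m j * A * t + t = modulus m j * t + modulus m i * B * t := by
      calc modulus m j * A * t + t = (modulus m j * A + 1) * t := by ring
        _ = _ := by rw [hAB]; ring
    have e1 : modulus m j * A * t = (modulus m j * modulus m i) * (A * u) := by
      rw [hu]; ring
    have e2 : modulus m j * t + modulus m i * B * t =
        (modulus m j * modulus m i) * (u + B * v) := by
      calc modulus m j * t + modulus m i * B * t =
          modulus m j * (modulus m i * u) + modulus m i * B * (modulus m j * v) := by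
            rw [← hv, ← hu]
        _ = _ := by ring
    refine dvd_of_dvd_add (a := modulus m j * A * t) ?_ ?_
    · rw [e, e2]; exact Dvd.intro _ rfl
    · rw [e1]; exact Dvd.intro _ rfl

lemma mem_pair {i k m n : M} : Mem i (pair k (pair m n)) ↔ i < k ∧ modulus m i ∣ n := by
  constructor
  · rintro ⟨k', m', n', h, h1, h2⟩
    obtain ⟨e1, h3⟩ := pair_inj h
    obtain ⟨e2, e3⟩ := pair_inj h3
    subst e1 e2 e3
    obtain ⟨c, hc⟩ := h2
    exact ⟨h1, ⟨c, hc⟩⟩
  · rintro ⟨h1, ⟨c, hc⟩⟩
    exact ⟨k, m, n, rfl, h1, ⟨c, hc⟩⟩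

variable (S) in
include hS in
lemma mem_iff {i s : M} :
    Mem i s ↔ i < fst s ∧ modulus (fst (snd s)) i ∣ snd (snd s) := by
  have : s = pair (fst s) (pair (fst (snd s)) (snd (snd s))) := by
    rw [pair_fst_snd S, pair_fst_snd S]
  conv_lhs => rw [this, mem_pair]

lemma RF.modulus {f g : M → M} (hf : RF S f) (hg : RF S g) :
    RF S (fun x => modulus (f x) (g x)) :=
  (hf.mul (hg.add (RF.const 1))).add (RF.const 1)

lemma Rec.Mem {f g : M → M} (hf : RF S f) (hg : RF S g) : Rec S (fun x => Mem (f x) (g x)) :=
  ((Rec.lt hf hg.fst).and (Rec.dvd (RF.modulus hg.snd.fst hf) hg.snd.snd)).congr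
    fun _ => (mem_iff S).symm

variable (S) in
include hS in
lemma lt_of_Mem {i s : M} (h : Mem i s) : i < s :=
  lt_of_lt_of_le ((mem_iff S).mp h).1 (fst_le S s)

/-- an upper bound for the codes used in bounded comprehension -/
lemma pair_mono_bound {b m n N : M} (h : n ≤ N) : pair b (pair m n) <
    (b + ((m + N) * (m + N) + (m + N))) * (b + ((m + N) * (m + N) + (m + N))) +
      (b + ((m + N) * (m + N) + (m + N))) + 1 := by
  rw [lt_succ_iff]
  have h1 : pair m n ≤ (m + N) * (m + N) + (m + N) := by
    refine (pair_le_bound m n).trans ?_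
    have := zero_le'' m
    have := zero_le'' n
    simp only [tr_le, map_add, map_zero, map_mul, map_one] at *
    nlinarith
  refine (pair_le_bound _ _).trans ?_
  have := zero_le'' b
  have := zero_le'' (pair m n)
  generalize (m + N) * (m + N) + (m + N) = Y at *
  simp only [tr_le, map_add, map_zero, map_mul, map_one] at *
  nlinarith

/-- Bounded `Σ⁰₁` comprehension: for every `b` there is a bound `B` such that for every r.e.
predicate `P` the finite set of the `i < b` with `P i` has a code below `B`. -/
theorem finite_comprehension (b : M) : ∃ B, ∀ P : M → Prop, RE S P →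
    ∃ s, s < B ∧ ∀ i, Mem i s ↔ i < b ∧ P i := by
  obtain ⟨m, hm0, hm⟩ := exists_common_multiple (S := S) (f := fun c => c + 1)
    (RF.id.add (RF.const 1)) (fun i => lt_of_le_of_lt (zero_le'' i) (lt_succ_self' i)) b
  have hp0 : ∀ i, 0 < modulus m i := fun i => lt_of_le_of_lt (zero_le'' _) (lt_succ_self' _)
  obtain ⟨N, hN0, hN⟩ := exists_common_multiple (S := S) (f := fun i => modulus m i)
    (RF.modulus (RF.const m) RF.id) hp0 b
  refine ⟨(b + ((m + N) * (m + N) + (m + N))) * (b + ((m + N) * (m + N) + (m + N))) +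
      (b + ((m + N) * (m + N) + (m + N))) + 1, fun P hP => ?_⟩
  -- admissible codes
  let A : M → Prop := fun n => (0 < n ∧ n ∣ N) ∧ (∀ i, i < b → (¬ modulus m i ∣ n) ∨ P i) ∧
    (∀ i, i < b → modulus m i ∣ n ∨ modulus m i * n ∣ N)
  have hA : RE S A := by
    refine ((Rec.lt (RF.const 0) RF.id).and (Rec.dvd RF.id (RF.const N))).re.and (RE.and ?_ ?_)
    · exact RE.ball (P := fun n i => (¬ modulus m i ∣ n) ∨ P i)
        ((Rec.dvd (RF.modulus (RF.const m) RF.snd') RF.fst').not.re.or (hP.comp RF.snd'))
        (RF.const b)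
    · exact (Rec.ball (P := fun n i => modulus m i ∣ n ∨ modulus m i * n ∣ N)
        ((Rec.dvd (RF.modulus (RF.const m) RF.snd') RF.fst').or
          (Rec.dvd ((RF.modulus (RF.const m) RF.snd').mul RF.fst') (RF.const N)))
        (RF.const b)).re
  have hA' : RE S (fun k => ∃ n, n + k = N ∧ A n) :=
    RE.ex (P := fun k n => n + k = N ∧ A n)
      ((Rec.eq (RF.snd'.add RF.fst') (RF.const N)).re.and (hA.comp RF.snd'))
  have h1 : A 1 := by
    refine ⟨⟨by rw [pos_iff]; exact one_ne_zero, one_dvd _⟩, fun i hi => Or.inl ?_,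
      fun i hi => Or.inr (by rw [mul_one]; exact hN i hi)⟩
    intro hdvd
    have h2 := le_of_dvd' one_ne_zero hdvd
    unfold modulus at h2
    have h3 := zero_le'' i
    have : 0 < m * (i + 1) :=
      mul_pos hm0 (lt_of_le_of_lt (zero_le'' i) (lt_succ_self' i))
    simp only [tr_le, tr_lt, map_add, map_zero, map_mul, map_one] at *
    linarith
  obtain ⟨k1, hk1⟩ := Disc.exists_add 1 N (one_le_iff.mpr hN0.ne')
  obtain ⟨k, ⟨n, hnk, hAn⟩, hmin⟩ := hA'.least (a := k1) ⟨1, hk1.symm, h1⟩
  have hnN : n ≤ N := by rw [← hnk]; exact le_add_r _ _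
  refine ⟨pair b (pair m n), pair_mono_bound hnN, fun i => ?_⟩
  rw [mem_pair]
  constructor
  · rintro ⟨hi, hd⟩
    refine ⟨hi, ?_⟩
    rcases hAn.2.1 i hi with h | h
    · exact absurd hd h
    · exact h
  · rintro ⟨hi, hPi⟩
    refine ⟨hi, ?_⟩
    by_contra hd
    have hin : modulus m i * n ∣ N := by
      rcases hAn.2.2 i hi with h | h
      · exact absurd h hd
      · exact h
    have hn0 : 0 < n := hAn.1.1
    have hAn' : A (modulus m i * n) := by
      refine ⟨⟨mul_pos (hp0 i) hn0, hin⟩, fun j hj => ?_, fun j hj => ?_⟩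
      · by_cases hij : i = j
        · subst hij; exact Or.inr hPi
        · by_cases hjn : modulus m j ∣ modulus m i * n
          · have := dvd_of_dvd_mul_modulus hm hij hi hj hjn
            rcases hAn.2.1 j hj with h | h
            · exact absurd this h
            · exact Or.inr h
          · exact Or.inl hjn
      · by_cases hij : i = j
        · subst hij; exact Or.inl (Dvd.intro _ rfl)
        · by_cases hjn : modulus m j ∣ n
          · exact Or.inl (hjn.mul_left _)
          · refine Or.inr ?_
            have hjn' : modulus m j * n ∣ N := by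
              rcases hAn.2.2 j hj with h | h
              · exact absurd h hjn
              · exact h
            obtain ⟨t, ht⟩ := hAn.1.2
            have e1 : modulus m i ∣ t := by
              rw [ht, mul_comm (modulus m i) n] at hin
              exact dvd_cancel hn0 hin
            have e2 : modulus m j ∣ t := by
              rw [ht, mul_comm (modulus m j) n] at hjn'
              exact dvd_cancel hn0 hjn'
            have e3 := mul_modulus_dvd hm hij hi hj e1 e2
            have e4 : modulus m j * (modulus m i * n) = n * (modulus m j * modulus m i) := by ring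
            rw [e4, ht]
            exact mul_dvd_mul_left n e3
    have hle := le_of_dvd' hN0.ne' hin
    obtain ⟨k', hk'⟩ := Disc.exists_add _ _ hle
    refine hmin k' ?_ ⟨modulus m i * n, hk'.symm, hAn'⟩
    -- `k' < k`
    have hlt : n < modulus m i * n := by
      unfold modulus
      have h3 : 0 < m * (i + 1) :=
        mul_pos hm0 (lt_of_le_of_lt (zero_le'' i) (lt_succ_self' i))
      generalize m * (i + 1) = q at *
      simp only [tr_le, tr_lt, tr_eq, map_add, map_zero, map_mul, map_one] at *
      nlinarith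
    rw [← hnk] at hk'
    by_contra hkk
    push Not at hkk
    generalize modulus m i * n = q at *
    simp only [tr_le, tr_lt, tr_eq, map_add, map_zero, map_mul, map_one] at *
    linarith

/-- Codes of finite sets: for every r.e. predicate `P` and every `b` there is a code of the
finite set of the `i < b` with `P i`. -/
lemma exists_code {P : M → Prop} (hP : RE S P) (b : M) : ∃ s, ∀ i, Mem i s ↔ i < b ∧ P i := by
  obtain ⟨B, hB⟩ := finite_comprehension (S := S) b
  obtain ⟨s, _, hs⟩ := hB P hP
  exact ⟨s, hs⟩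

end Pool.Agent.RM
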