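import Pool.Agent.RM.Modal

set_option autoImplicit false
set_option linter.unusedSimpArgs false
set_option linter.unusedSectionVars false

/-!
# Closure properties of internal provability, and internal derivations from hypotheses
-/

namespace Pool.Agent.RM

variable {M : Type*} [CommSemiring M] [LinearOrder M] [Disc M]
variable (S : Set (Set M)) [hS : IsRCA S]

/-! ### Rules of `Provable` -/

/-- union of two finite sets together with one new element -/
lemma exists_union (d e z : M) (_ : IsRCA S) :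
    ∃ f : M, ∀ x, Mem x f ↔ Mem x d ∨ Mem x e ∨ x = z := by
  have hR : Rec S (fun x => Mem x d ∨ Mem x e ∨ x = z) :=
    (Rec.Mem RF.id (RF.const d)).or ((Rec.Mem RF.id (RF.const e)).or (Rec.eq RF.id (RF.const z)))
  obtain ⟨f, hf⟩ := exists_code hR.re (d + e + z + 1)
  refine ⟨f, fun x => ?_⟩
  rw [hf]
  refine ⟨fun h => h.2, fun h => ⟨?_, h⟩⟩
  rw [lt_succ_iff]
  rcases h with h | h | rfl
  · exact (lt_of_Mem S h).le.trans ((le_add_r _ _).trans (le_add_r _ _))
  · exact (lt_of_Mem S h).le.trans ((le_add_l _ _).trans (le_add_r _ _))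
  · exact le_add_l _ _

include hS in
/-- adding a line to the union of two derivations -/
lemma provable_of_step {d e i θ : M} (hd : IsDerivation d) (he : IsDerivation e)
    (h : ∀ f : M, (∀ x, Mem x d → Mem x f) → (∀ x, Mem x e → Mem x f) →
      (IsAxiom θ ∨
    (∃ j k η, j < i ∧ k < i ∧ Mem (pair j η) f ∧ Mem (pair k (imp η θ)) f) ∨
    (∃ j η, j < i ∧ Mem (pair j η) f ∧ θ = box η) ∨
    (∃ j η, j < i ∧ Mem (pair j η) f ∧ SubstInst η θ))) : Provable θ := by
  obtain ⟨f, hf⟩ := exists_union S d e (pair i θ) hS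
  have hdf : ∀ x, Mem x d → Mem x f := fun x hx => (hf x).mpr (Or.inl hx)
  have hef : ∀ x, Mem x e → Mem x f := fun x hx => (hf x).mpr (Or.inr (Or.inl hx))
  refine ⟨f, i, ?_, (hf _).mpr (Or.inr (Or.inr rfl))⟩
  have mono : ∀ (g : M) (_ : ∀ x, Mem x g → Mem x f) (i' θ' : M),
      (IsAxiom θ' ∨
      (∃ j k η, j < i' ∧ k < i' ∧ Mem (pair j η) g ∧ Mem (pair k (imp η θ')) g) ∨
      (∃ j η, j < i' ∧ Mem (pair j η) g ∧ θ' = box η) ∨
      (∃ j η, j < i' ∧ Mem (pair j η) g ∧ SubstInst η θ')) →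
      (IsAxiom θ' ∨
      (∃ j k η, j < i' ∧ k < i' ∧ Mem (pair j η) f ∧ Mem (pair k (imp η θ')) f) ∨
      (∃ j η, j < i' ∧ Mem (pair j η) f ∧ θ' = box η) ∨
      (∃ j η, j < i' ∧ Mem (pair j η) f ∧ SubstInst η θ')) := by
    intro g hg i' θ' h
    rcases h with h | ⟨j, k, η, h1, h2, h3, h4⟩ | ⟨j, η, h1, h2, h3⟩ | ⟨j, η, h1, h2, h3⟩
    · exact Or.inl h
    · exact Or.inr (Or.inl ⟨j, k, η, h1, h2, hg _ h3, hg _ h4⟩)
    · exact Or.inr (Or.inr (Or.inl ⟨j, η, h1, hg _ h2, h3⟩))
    · exact Or.inr (Or.inr (Or.inr ⟨j, η, h1, hg _ h2, h3⟩))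
  intro i' θ' hm
  rcases (hf _).mp hm with h1 | h1 | h1
  · exact mono d hdf _ _ (hd _ _ h1)
  · exact mono e hef _ _ (he _ _ h1)
  · obtain ⟨rfl, rfl⟩ := pair_inj h1
    exact h f hdf hef

include hS in
lemma exists_empty : ∃ d : M, IsDerivation d := by
  obtain ⟨f, hf⟩ := exists_code (S := S) (P := fun _ => False)
    ((Rec.lt RF.id (RF.const 0)).congr fun x =>
      ⟨fun h => absurd h (not_lt.mpr (zero_le'' x)), fun h => h.elim⟩).re 0
  refine ⟨f, fun i θ h => ?_⟩
  exact (((hf _).mp h).2).elim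

include hS in
lemma provable_ax {θ : M} (h : IsAxiom θ) : Provable θ := by
  obtain ⟨d, hd⟩ := exists_empty S
  exact provable_of_step S (i := 0) hd hd fun f _ _ => Or.inl h

include hS in
lemma provable_mp {η θ : M} (h1 : Provable η) (h2 : Provable (imp η θ)) : Provable θ := by
  obtain ⟨d, i, hd, hi⟩ := h1
  obtain ⟨e, j, he, hj⟩ := h2
  refine provable_of_step S (i := i + j + 1) hd he fun f h h' => Or.inr (Or.inl ?_)
  exact ⟨i, j, η, lt_succ_iff.mpr (le_add_r _ _), lt_succ_iff.mpr (le_add_l _ _), h _ hi, h' _ hj⟩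

include hS in
lemma provable_nec {η : M} (h1 : Provable η) : Provable (box η) := by
  obtain ⟨d, i, hd, hi⟩ := h1
  refine provable_of_step S (i := i + 1) hd hd fun f h _ => Or.inr (Or.inr (Or.inl ?_))
  exact ⟨i, η, lt_succ_self' i, h _ hi, rfl⟩

include hS in
lemma provable_subst {η θ : M} (h1 : Provable η) (h2 : SubstInst η θ) : Provable θ := by
  obtain ⟨d, i, hd, hi⟩ := h1
  refine provable_of_step S (i := i + 1) hd hd fun f h _ => Or.inr (Or.inr (Or.inr ?_))
  exact ⟨i, η, lt_succ_self' i, h _ hi, h2⟩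

/-! ### Substitution instances of standard formulas -/

/-- standard modal formulas in three variables -/
inductive Fml
  | v (n : Fin 3)
  | bot
  | imp (A B : Fml)
  | box (A : Fml)

/-- the code of a standard formula, with the given interpretation of the variables -/
noncomputable def Fml.code (e : Fin 3 → M) : Fml → M
  | .v n => e n
  | .bot => Pool.Agent.RM.bot
  | .imp A B => Pool.Agent.RM.imp (A.code e) (B.code e)
  | .box A => Pool.Agent.RM.box (A.code e)

/-- the list of subformulas -/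
def Fml.subs : Fml → List Fml
  | .v n => [.v n]
  | .bot => [.bot]
  | .imp A B => .imp A B :: (A.subs ++ B.subs)
  | .box A => .box A :: A.subs

lemma Fml.self_mem_subs (A : Fml) : A ∈ A.subs := by
  cases A <;> simp [Fml.subs]

lemma Fml.subs_imp {A B C : Fml} (h : Fml.imp A B ∈ C.subs) : A ∈ C.subs ∧ B ∈ C.subs := by
  induction C with
  | v n => simp [Fml.subs] at h
  | bot => simp [Fml.subs] at h
  | imp C D ihC ihD =>
    simp only [Fml.subs, List.mem_cons, List.mem_append, Fml.imp.injEq] at h ⊢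
    rcases h with ⟨rfl, rfl⟩ | h | h
    · exact ⟨Or.inr (Or.inl A.self_mem_subs), Or.inr (Or.inr B.self_mem_subs)⟩
    · exact ⟨Or.inr (Or.inl (ihC h).1), Or.inr (Or.inl (ihC h).2)⟩
    · exact ⟨Or.inr (Or.inr (ihD h).1), Or.inr (Or.inr (ihD h).2)⟩
  | box C ih =>
    simp only [Fml.subs, List.mem_cons, reduceCtorEq, false_or] at h ⊢
    exact ⟨Or.inr (ih h).1, Or.inr (ih h).2⟩

lemma Fml.subs_box {A C : Fml} (h : Fml.box A ∈ C.subs) : A ∈ C.subs := by
  induction C with
  | v n => simp [Fml.subs] at h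
  | bot => simp [Fml.subs] at h
  | imp C D ihC ihD =>
    simp only [Fml.subs, List.mem_cons, List.mem_append, reduceCtorEq, false_or] at h ⊢
    rcases h with h | h
    · exact Or.inr (Or.inl (ihC h))
    · exact Or.inr (Or.inr (ihD h))
  | box C ih =>
    simp only [Fml.subs, List.mem_cons, Fml.box.injEq] at h ⊢
    rcases h with rfl | h
    · exact Or.inr A.self_mem_subs
    · exact Or.inr (ih h)

/-- the standard variables -/
def stdVar : Fin 3 → M := ![pvar 0, pvar 1, pvar (1 + 1)]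

lemma stdVar_eq (n : Fin 3) : ∃ i : M, stdVar n = pvar i := by
  fin_cases n
  · exact ⟨0, rfl⟩
  · exact ⟨1, rfl⟩
  · exact ⟨1 + 1, rfl⟩

lemma stdVar_inj {m n : Fin 3} (h : (stdVar m : M) = stdVar n) : m = n := by
  fin_cases m <;> fin_cases n <;> first | rfl | (exfalso; revert h; simp only [stdVar])
  · exact fun h => ne01 (pvar_inj h)
  · exact fun h => ne02 ((pvar_inj h).trans one_add_one_eq_two)
  · exact fun h => ne01 (pvar_inj h).symm
  · exact fun h => ne12 ((pvar_inj h).trans one_add_one_eq_two)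
  · exact fun h => ne02 ((pvar_inj h).symm.trans one_add_one_eq_two)
  · exact fun h => ne12 ((pvar_inj h).symm.trans one_add_one_eq_two)

lemma Fml.code_inj {A B : Fml} (h : (A.code stdVar : M) = B.code stdVar) : A = B := by
  induction A generalizing B with
  | v m =>
    obtain ⟨i, hi⟩ := stdVar_eq (M := M) m
    cases B with
    | v n => rw [stdVar_inj h]
    | bot => exact absurd (h.symm.trans hi) bot_ne_pvar
    | imp C D => exact absurd (hi.symm.trans h) pvar_ne_imp
    | box C => exact absurd (hi.symm.trans h) pvar_ne_box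
  | bot =>
    cases B with
    | v n =>
      obtain ⟨i, hi⟩ := stdVar_eq (M := M) n
      exact absurd (h.trans hi) bot_ne_pvar
    | bot => rfl
    | imp C D => exact absurd h bot_ne_imp
    | box C => exact absurd h bot_ne_box
  | imp A A' ihA ihA' =>
    cases B with
    | v n =>
      obtain ⟨i, hi⟩ := stdVar_eq (M := M) n
      exact absurd (hi.symm.trans h.symm) pvar_ne_imp
    | bot => exact absurd h.symm bot_ne_imp
    | imp C D =>
      obtain ⟨h1, h2⟩ := imp_inj h
      rw [ihA h1, ihA' h2]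
    | box C => exact absurd h imp_ne_box
  | box A ih =>
    cases B with
    | v n =>
      obtain ⟨i, hi⟩ := stdVar_eq (M := M) n
      exact absurd (hi.symm.trans h.symm) pvar_ne_box
    | bot => exact absurd h.symm bot_ne_box
    | imp C D => exact absurd h.symm imp_ne_box
    | box C => rw [ih (box_inj h)]

include hS in
lemma exists_code_list {ι : Type*} (L : List ι) (g : ι → M) :
    ∃ s : M, ∀ x, Mem x s ↔ ∃ i ∈ L, x = g i := by
  have h1 : Rec S (fun x => ∃ i ∈ L, x = g i) := by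
    induction L with
    | nil =>
      exact (Rec.lt RF.id (RF.const 0)).congr fun x =>
        ⟨fun h => absurd h (not_lt.mpr (zero_le'' x)), fun h => by simp at h⟩
    | cons i L ih =>
      exact ((Rec.eq RF.id (RF.const (g i))).or ih).congr fun x => by simp
  have h2 : ∃ b, ∀ i ∈ L, g i < b := by
    clear h1
    induction L with
    | nil => exact ⟨0, by simp⟩
    | cons i L ih =>
      obtain ⟨b, hb⟩ := ih
      refine ⟨b + g i + 1, ?_⟩
      intro j hj
      rw [lt_succ_iff]
      rcases List.mem_cons.mp hj with rfl | hj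
      · exact le_add_l _ _
      · exact (hb j hj).le.trans (le_add_r _ _)
  obtain ⟨b, hb⟩ := h2
  obtain ⟨s, hs⟩ := exists_code h1.re b
  refine ⟨s, fun x => (hs x).trans ⟨fun h => h.2, fun h => ⟨?_, h⟩⟩⟩
  obtain ⟨i, hi, rfl⟩ := h
  exact hb i hi

include hS in
/-- every instance of a standard formula is a substitution instance -/
lemma substInst_code (A : Fml) (e : Fin 3 → M) : SubstInst (A.code stdVar) (A.code e) := by
  obtain ⟨f, hf⟩ := exists_code_list S A.subs
    (fun B : Fml => pair (B.code stdVar : M) (B.code e))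
  have hf' : ∀ x y, Mem (pair x y) f ↔ ∃ B ∈ A.subs, x = B.code stdVar ∧ y = B.code e := by
    intro x y
    rw [hf]
    constructor
    · rintro ⟨B, hB, h⟩
      obtain ⟨h1, h2⟩ := pair_inj h
      exact ⟨B, hB, h1, h2⟩
    · rintro ⟨B, hB, h1, h2⟩
      exact ⟨B, hB, by rw [h1, h2]⟩
  refine ⟨f, ⟨?_, ?_, ?_, ?_, ?_⟩, ?_⟩
  · intro x y y' h h'
    obtain ⟨B, _, h1, h2⟩ := (hf' _ _).mp h
    obtain ⟨C, _, h3, h4⟩ := (hf' _ _).mp h'
    have : B = C := Fml.code_inj (h1.symm.trans h3)
    rw [h2, h4, this]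
  · intro y h
    obtain ⟨B, _, h1, h2⟩ := (hf' _ _).mp h
    have : Fml.bot = B := Fml.code_inj (M := M) h1
    rw [h2, ← this]
    rfl
  · intro i y h
    obtain ⟨B, _, h1, h2⟩ := (hf' _ _).mp h
    exfalso
    cases B with
    | v n =>
      obtain ⟨j, hj⟩ := stdVar_eq (M := M) n
      exact pvar_ne_pcst (hj.symm.trans h1.symm)
    | bot => exact bot_ne_pcst h1.symm
    | imp C D => exact pcst_ne_imp h1
    | box C => exact pcst_ne_box h1
  · intro a b y h
    obtain ⟨B, hB, h1, h2⟩ := (hf' _ _).mp h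
    cases B with
    | v n =>
      obtain ⟨j, hj⟩ := stdVar_eq (M := M) n
      exact absurd (hj.symm.trans h1.symm) pvar_ne_imp
    | bot => exact absurd h1.symm bot_ne_imp
    | imp C D =>
      obtain ⟨h3, h4⟩ := imp_inj h1
      obtain ⟨hC, hD⟩ := Fml.subs_imp hB
      exact ⟨_, _, (hf' _ _).mpr ⟨C, hC, h3, rfl⟩, (hf' _ _).mpr ⟨D, hD, h4, rfl⟩, h2⟩
    | box C => exact absurd h1 imp_ne_box
  · intro a y h
    obtain ⟨B, hB, h1, h2⟩ := (hf' _ _).mp h
    cases B with
    | v n =>
      obtain ⟨j, hj⟩ := stdVar_eq (M := M) n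
      exact absurd (hj.symm.trans h1.symm) pvar_ne_box
    | bot => exact absurd h1.symm bot_ne_box
    | imp C D => exact absurd h1.symm imp_ne_box
    | box C => exact ⟨_, (hf' _ _).mpr ⟨C, Fml.subs_box hB, box_inj h1, rfl⟩, h2⟩
  · exact (hf' _ _).mpr ⟨A, A.self_mem_subs, rfl, rfl⟩

include hS in
lemma provable_inst (A : Fml) (e : Fin 3 → M) (h : IsAxiom (A.code stdVar : M)) :
    Provable (A.code e) :=
  provable_subst S (provable_ax S h) (substInst_code S A e)

include hS in
lemma ax_K1 (a b : M) : Provable (imp a (imp b a)) :=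
  provable_inst S (.imp (.v 0) (.imp (.v 1) (.v 0))) ![a, b, b] (Or.inl rfl)
include hS in
lemma ax_K2 (a b c : M) :
    Provable (imp (imp a (imp b c)) (imp (imp a b) (imp a c))) :=
  provable_inst S (.imp (.imp (.v 0) (.imp (.v 1) (.v 2)))
    (.imp (.imp (.v 0) (.v 1)) (.imp (.v 0) (.v 2)))) ![a, b, c] (Or.inr (Or.inl rfl))
include hS in
lemma ax_DN (a : M) : Provable (imp (neg (neg a)) a) :=
  provable_inst S (.imp (.imp (.imp (.v 0) .bot) .bot) (.v 0)) ![a, a, a]
    (Or.inr (Or.inr (Or.inl rfl)))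
include hS in
lemma ax_K (a b : M) : Provable (imp (box (imp a b)) (imp (box a) (box b))) :=
  provable_inst S (.imp (.box (.imp (.v 0) (.v 1))) (.imp (.box (.v 0)) (.box (.v 1))))
    ![a, b, b] (Or.inr (Or.inr (Or.inr (Or.inl rfl))))
include hS in
lemma ax_T (a : M) : Provable (imp (box a) a) :=
  provable_inst S (.imp (.box (.v 0)) (.v 0)) ![a, a, a]
    (Or.inr (Or.inr (Or.inr (Or.inr (Or.inl rfl)))))
include hS in
lemma ax_4 (a : M) : Provable (imp (box a) (box (box a))) :=
  provable_inst S (.imp (.box (.v 0)) (.box (.box (.v 0)))) ![a, a, a]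
    (Or.inr (Or.inr (Or.inr (Or.inr (Or.inr (Or.inl rfl))))))
include hS in
lemma ax_2 (a : M) : Provable (imp (dia (box a)) (box (dia a))) :=
  provable_inst S (.imp (.imp (.box (.imp (.box (.v 0)) .bot)) .bot)
    (.box (.imp (.box (.imp (.v 0) .bot)) .bot))) ![a, a, a]
    (Or.inr (Or.inr (Or.inr (Or.inr (Or.inr (Or.inr rfl))))))

/-! ### Derivations from hypotheses -/

/-- `d` codes a derivation from the hypotheses `H` (and all theorems) by modus ponens. -/
def IsHDer (H : M → Prop) (d : M) : Prop :=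
  ∀ i θ : M, Mem (pair i θ) d → Provable θ ∨ H θ ∨
    (∃ j k η, j < i ∧ k < i ∧ Mem (pair j η) d ∧ Mem (pair k (imp η θ)) d)

/-- `θ` is derivable from `H`. -/
def Der (H : M → Prop) (θ : M) : Prop := ∃ d i, IsHDer H d ∧ Mem (pair i θ) d

variable {S}

lemma re_isHDer {H : M → M → Prop} (hH : RE S (fun z => H (fst z) (snd z))) :
    RE S (fun z => IsHDer (H (fst z)) (snd z)) := by
  have : RE S (fun z : M => ∀ u, Mem u (snd z) → (Provable (snd u) ∨ H (fst z) (snd u) ∨
    (∃ j k η, j < fst u ∧ k < fst u ∧ Mem (pair j η) (snd z) ∧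
      Mem (pair k (imp η (snd u))) (snd z)))) := by
    refine RE.ballMem (P := fun z u => (Provable (snd u) ∨ H (fst z) (snd u) ∨
    (∃ j k η, j < fst u ∧ k < fst u ∧ Mem (pair j η) (snd z) ∧
      Mem (pair k (imp η (snd u))) (snd z)))) ?_ RF.snd'
    refine RE.or ?_ (RE.or ?_ ?_)
    · exact re_provable.comp (RF.snd RF.snd')
    · exact hH.comp₂ (P := H) (RF.fst RF.fst') (RF.snd RF.snd')
    · refine RE.ex (P := fun z j => ∃ k η, j < fst (snd z) ∧ k < fst (snd z) ∧
        Mem (pair j η) (snd (fst z)) ∧ Mem (pair k (imp η (snd (snd z)))) (snd (fst z))) ?_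
      refine RE.ex (P := fun z k => ∃ η, snd z < fst (snd (fst z)) ∧ k < fst (snd (fst z)) ∧
        Mem (pair (snd z) η) (snd (fst (fst z))) ∧
          Mem (pair k (imp η (snd (snd (fst z))))) (snd (fst (fst z)))) ?_
      refine RE.ex (P := fun z η => snd (fst z) < fst (snd (fst (fst z))) ∧
        snd z < fst (snd (fst (fst z))) ∧
        Mem (pair (snd (fst z)) η) (snd (fst (fst (fst z)))) ∧
          Mem (pair (snd z) (imp η (snd (snd (fst (fst z)))))) (snd (fst (fst (fst z))))) ?_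
      have a1 : RF S (fun z : M => snd (fst (fst z))) := RF.snd (RF.fst RF.fst')
      have a2 : RF S (fun z : M => fst (snd (fst (fst (fst z))))) :=
        RF.fst (RF.snd (RF.fst (RF.fst RF.fst')))
      have a3 : RF S (fun z : M => snd (fst z)) := RF.snd RF.fst'
      have a4 : RF S (fun z : M => snd (fst (fst (fst (fst z))))) :=
        RF.snd (RF.fst (RF.fst (RF.fst RF.fst')))
      have a5 : RF S (fun z : M => snd (snd (fst (fst (fst z))))) :=
        RF.snd (RF.snd (RF.fst (RF.fst RF.fst')))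
      exact ((Rec.lt a1 a2).and ((Rec.lt a3 a2).and ((Rec.Mem (a1.pair' RF.snd') a4).and
        (Rec.Mem (a3.pair' (RF.snd'.imp' a5)) a4)))).re
  refine this.congr fun z => ?_
  constructor
  · intro h i θ hi
    simpa using h _ hi
  · intro h u hu
    have := h (fst u) (snd u) (by rwa [pair_fst_snd S])
    simpa using this

/-- derivability from a uniformly r.e. family of hypotheses is r.e. -/
lemma re_der {H : M → M → Prop} (hH : RE S (fun z => H (fst z) (snd z))) :
    RE S (fun z => Der (H (fst z)) (snd z)) := by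
  unfold Der
  refine RE.ex (P := fun z d => ∃ i, IsHDer (H (fst z)) d ∧ Mem (pair i (snd z)) d) ?_
  refine RE.ex (P := fun z i => IsHDer (H (fst (fst z))) (snd z) ∧
    Mem (pair i (snd (fst z))) (snd z)) ?_
  exact ((re_isHDer hH).comp₂ (P := fun c d => IsHDer (H c) d) (RF.fst (RF.fst RF.fst'))
    (RF.snd RF.fst')).and
    (Rec.Mem (RF.snd'.pair' (RF.snd (RF.fst RF.fst'))) (RF.snd RF.fst')).re

lemma re_der' {H : M → Prop} (hH : RE S H) : RE S (Der H) := by
  have := re_der (S := S) (H := fun _ θ => H θ) (hH.comp RF.snd')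
  exact (this.comp₂ (P := fun _ θ => Der H θ) (RF.const 0) RF.id)

section DerRules

/-- induction on derivations from hypotheses, for r.e. predicates -/
lemma Der.ind {H : M → Prop} {θ : M} (h : Der H θ) {Q : M → Prop} (hQ : RE S Q)
    (h1 : ∀ θ, Provable θ → Q θ) (h2 : ∀ θ, H θ → Q θ)
    (h3 : ∀ η θ, Q η → Q (imp η θ) → Q θ) : Q θ := by
  obtain ⟨d, i, hd, hi⟩ := h
  have key : ∀ i, ∀ u, Mem u d → (¬ fst u = i ∨ Q (snd u)) := by
    have : RE S (fun i => ∀ u, Mem u d → (¬ fst u = i ∨ Q (snd u))) := by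
      refine RE.ballMem (P := fun i u => ¬ fst u = i ∨ Q (snd u)) ?_ (RF.const d)
      exact (Rec.eq (RF.fst RF.snd') RF.fst').not.re.or (hQ.comp (RF.snd RF.snd'))
    refine this.strong_induction ?_
    intro i ih u hu
    by_cases hi : fst u = i
    · right
      rcases hd (fst u) (snd u) (by rwa [pair_fst_snd S]) with h | h | ⟨j, k, η, hj, hk, h4, h5⟩
      · exact h1 _ h
      · exact h2 _ h
      · refine h3 η _ ?_ ?_
        · rcases ih j (by rw [← hi]; exact hj) _ h4 with h | h
          · simp at h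
          · simpa using h
        · rcases ih k (by rw [← hi]; exact hk) _ h5 with h | h
          · simp at h
          · simpa using h
    · exact Or.inl hi
  rcases key i _ hi with h | h
  · simp at h
  · simpa using h

variable (S) in
include hS in
lemma Der.of_step {H : M → Prop} {d e i θ : M} (hd : IsHDer H d) (he : IsHDer H e)
    (h : ∀ f : M, (∀ x, Mem x d → Mem x f) → (∀ x, Mem x e → Mem x f) → (Provable θ ∨ H θ ∨
    (∃ j k η, j < i ∧ k < i ∧ Mem (pair j η) f ∧ Mem (pair k (imp η θ)) f))) : Der H θ := by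
  obtain ⟨f, hf⟩ := exists_union S d e (pair i θ) hS
  have hdf : ∀ x, Mem x d → Mem x f := fun x hx => (hf x).mpr (Or.inl hx)
  have hef : ∀ x, Mem x e → Mem x f := fun x hx => (hf x).mpr (Or.inr (Or.inl hx))
  refine ⟨f, i, ?_, (hf _).mpr (Or.inr (Or.inr rfl))⟩
  have mono : ∀ (g : M) (_ : ∀ x, Mem x g → Mem x f) (i' θ' : M),
      (Provable θ' ∨ H θ' ∨
      (∃ j k η, j < i' ∧ k < i' ∧ Mem (pair j η) g ∧ Mem (pair k (imp η θ')) g)) →
      (Provable θ' ∨ H θ' ∨
      (∃ j k η, j < i' ∧ k < i' ∧ Mem (pair j η) f ∧ Mem (pair k (imp η θ')) f)) := by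
    intro g hg i' θ' h
    rcases h with h | h | ⟨j, k, η, h1, h2, h3, h4⟩
    · exact Or.inl h
    · exact Or.inr (Or.inl h)
    · exact Or.inr (Or.inr ⟨j, k, η, h1, h2, hg _ h3, hg _ h4⟩)
  intro i' θ' hm
  rcases (hf _).mp hm with h1 | h1 | h1
  · exact mono d hdf _ _ (hd _ _ h1)
  · exact mono e hef _ _ (he _ _ h1)
  · obtain ⟨rfl, rfl⟩ := pair_inj h1
    exact h f hdf hef

variable (S) in
include hS in
lemma exists_empty' (H : M → Prop) : ∃ d : M, IsHDer H d := by
  obtain ⟨f, hf⟩ := exists_code (S := S) (P := fun _ => False)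
    ((Rec.lt RF.id (RF.const 0)).congr fun x =>
      ⟨fun h => absurd h (not_lt.mpr (zero_le'' x)), fun h => h.elim⟩).re 0
  refine ⟨f, fun i θ h => ?_⟩
  exact (((hf _).mp h).2).elim

variable (S) in
include hS in
lemma Der.thm {H : M → Prop} {θ : M} (h : Provable θ) : Der H θ := by
  obtain ⟨d, hd⟩ := exists_empty' S H
  exact Der.of_step S (i := 0) hd hd fun f _ _ => Or.inl h

variable (S) in
include hS in
lemma Der.hyp {H : M → Prop} {θ : M} (h : H θ) : Der H θ := by
  obtain ⟨d, hd⟩ := exists_empty' S H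
  exact Der.of_step S (i := 0) hd hd fun f _ _ => Or.inr (Or.inl h)

variable (S) in
include hS in
lemma Der.mp {H : M → Prop} {η θ : M} (h1 : Der H (imp η θ)) (h2 : Der H η) : Der H θ := by
  obtain ⟨d, i, hd, hi⟩ := h2
  obtain ⟨e, j, he, hj⟩ := h1
  refine Der.of_step S (i := i + j + 1) hd he fun f h h' => Or.inr (Or.inr ?_)
  exact ⟨i, j, η, lt_succ_iff.mpr (le_add_r _ _), lt_succ_iff.mpr (le_add_l _ _), h _ hi, h' _ hj⟩

lemma Der.mono {H H' : M → Prop} {θ : M} (hH : ∀ x, H x → H' x) (h : Der H θ) : Der H' θ := by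
  obtain ⟨d, i, hd, hi⟩ := h
  refine ⟨d, i, fun j η hj => ?_, hi⟩
  rcases hd j η hj with h | h | h
  · exact Or.inl h
  · exact Or.inr (Or.inl (hH _ h))
  · exact Or.inr (Or.inr h)

/-- cut: hypotheses may be replaced by sets deriving them -/
lemma Der.trans {H H' : M → Prop} (hH' : RE S H') {θ : M} (h : Der H θ)
    (hH : ∀ x, H x → Der H' x) : Der H' θ :=
  h.ind (re_der' hH') (fun _ h => Der.thm S h) hH (fun _ _ h1 h2 => Der.mp S h2 h1)

/-- deduction theorem -/
lemma Der.ded {H : M → Prop} (hH : RE S H) {a b : M} (h : Der (fun θ => H θ ∨ θ = a) b) :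
    Der H (imp a b) := by
  have hQ : RE S (fun b => Der H (imp a b)) := (re_der' hH).comp ((RF.const a).imp' RF.id)
  refine h.ind (Q := fun b => Der H (imp a b)) hQ ?_ ?_ ?_
  · intro θ h
    exact Der.mp S (Der.thm S (ax_K1 S θ a)) (Der.thm S h)
  · rintro θ (h | rfl)
    · exact Der.mp S (Der.thm S (ax_K1 S θ a)) (Der.hyp S h)
    · exact Der.mp S (Der.mp S (Der.thm S (ax_K2 S θ (imp θ θ) θ))
        (Der.thm S (ax_K1 S θ (imp θ θ)))) (Der.thm S (ax_K1 S θ θ))
  · intro η θ h1 h2
    exact Der.mp S (Der.mp S (Der.thm S (ax_K2 S a η θ)) h2) h1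

variable (S) in
include hS in
lemma Der.efq {H : M → Prop} {a : M} (h : Der H bot) : Der H a := by
  refine Der.mp S (Der.thm S (ax_DN S a)) ?_
  exact Der.mp S (Der.thm S (ax_K1 S bot (neg a))) h

/-- proof by contradiction -/
lemma Der.byContra {H : M → Prop} (hH : RE S H) {a : M}
    (h : Der (fun θ => H θ ∨ θ = neg a) bot) : Der H a :=
  Der.mp S (Der.thm S (ax_DN S a)) (Der.ded hH h)

/-- proof by cases -/
lemma Der.cases {H : M → Prop} (hH : RE S H) {a : M}
    (h : Der (fun θ => H θ ∨ θ = a) bot) (h' : Der (fun θ => H θ ∨ θ = neg a) bot) :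
    Der H bot :=
  Der.mp S (Der.ded hH h) (Der.byContra hH h')

end DerRules

end Pool.Agent.RM
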