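import Pool.Agent.RM.Logic

set_option autoImplicit false
set_option linter.unusedSimpArgs false
set_option linter.unusedSectionVars false

/-!
# The weak completeness theorem for S4.2 in RCA₀
-/

namespace Pool.Agent.RM

variable {M : Type*} [CommSemiring M] [LinearOrder M] [Disc M]
variable (S : Set (Set M)) [hS : IsRCA S]

section Theorems

/-! ### Some theorems of S4.2 -/

lemma re_false : RE S (fun _ : M => False) :=
  ((Rec.lt RF.id (RF.const 0)).congr fun x =>
      ⟨fun h => absurd h (not_lt.mpr (zero_le'' x)), fun h => h.elim⟩).re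

lemma re_eq (a : M) : RE S (fun θ : M => θ = a) := (Rec.eq RF.id (RF.const a)).re

include hS in
lemma provable_of_der {θ : M} (h : Der (fun _ => False) θ) : Provable θ :=
  h.ind (S := S) re_provable (fun _ h => h) (fun _ h => h.elim) (fun _ _ h1 h2 =>
    provable_mp S h1 h2)

include hS in
lemma ded1 {a b : M} (h : Der (fun θ => θ = a) b) : Provable (imp a b) :=
  provable_of_der S (Der.ded (S := S) (re_false S) (h.mono fun _ h => Or.inr h))

include hS in
lemma ded2 {a b c : M} (h : Der (fun θ => θ = a ∨ θ = b) c) :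
    Provable (imp a (imp b c)) :=
  ded1 S (Der.ded (S := S) (re_eq S a) h)

include hS in
lemma ded3 {a b c d : M} (h : Der (fun θ => (θ = a ∨ θ = b) ∨ θ = c) d) :
    Provable (imp a (imp b (imp c d))) :=
  ded2 S (Der.ded (S := S) ((re_eq S a).or (re_eq S b)) h)

variable {S}

include hS in
lemma contra {a b : M} (h : Provable (imp a b)) : Provable (imp (neg b) (neg a)) := by
  refine ded2 S ?_
  exact Der.mp S (Der.hyp S (Or.inl rfl)) (Der.mp S (Der.thm S h) (Der.hyp S (Or.inr rfl)))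

include hS in
lemma dn_intro (a : M) : Provable (imp a (neg (neg a))) := by
  refine ded2 S ?_
  exact Der.mp S (Der.hyp S (Or.inr rfl)) (Der.hyp S (Or.inl rfl))

include hS in
lemma box_mono {a b : M} (h : Provable (imp a b)) : Provable (imp (box a) (box b)) :=
  provable_mp S (provable_nec S h) (ax_K S a b)

include hS in
lemma dia_intro (a : M) : Provable (imp a (dia a)) := by
  refine ded2 S ?_
  exact Der.mp S (Der.mp S (Der.thm S (ax_T S (neg a))) (Der.hyp S (Or.inr rfl)))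
    (Der.hyp S (Or.inl rfl))

include hS in
lemma dia_mono {a b : M} (h : Provable (imp a b)) : Provable (imp (dia a) (dia b)) :=
  contra (S := S) (box_mono (S := S) (contra (S := S) h))

include hS in
lemma prov_trans {a b c : M} (h : Provable (imp a b)) (h' : Provable (imp b c)) :
    Provable (imp a c) := by
  refine ded1 S ?_
  exact Der.mp S (Der.thm S h') (Der.mp S (Der.thm S h) (Der.hyp S rfl))

include hS in
lemma dia_box_persist (a : M) : Provable (imp (dia (box a)) (box (dia (box a)))) :=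
  prov_trans (S := S) (dia_mono (S := S) (ax_4 S a)) (ax_2 S (box a))

include hS in
lemma neg_dia_box_persist (a : M) :
    Provable (imp (neg (dia (box a))) (box (neg (dia (box a))))) :=
  prov_trans (S := S) (ax_DN S _) (prov_trans (S := S) (ax_4 S _)
    (box_mono (S := S) (dn_intro (S := S) _)))

include hS in
/-- `◇□(a → b) → (◇□a → ◇□b)` -/
lemma dia_box_K (a b : M) :
    Provable (imp (dia (box (imp a b))) (imp (dia (box a)) (dia (box b)))) := by
  have h2 : Provable (imp (box (imp a b)) (imp (neg (box b)) (neg (box a)))) := by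
    refine ded3 S ?_
    exact Der.mp S (Der.hyp S (Or.inl (Or.inr rfl)))
      (Der.mp S (Der.mp S (Der.thm S (ax_K S a b)) (Der.hyp S (Or.inl (Or.inl rfl))))
        (Der.hyp S (Or.inr rfl)))
  have h3 : Provable (imp (box (imp a b)) (imp (box (neg (box b))) (box (neg (box a))))) := by
    refine ded2 S ?_
    refine Der.mp S (Der.mp S (Der.thm S (ax_K S _ _)) ?_) (Der.hyp S (Or.inr rfl))
    refine Der.mp S (Der.thm S (box_mono (S := S) h2)) ?_
    exact Der.mp S (Der.thm S (ax_4 S _)) (Der.hyp S (Or.inl rfl))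
  have h4 : Provable (imp (box (neg (box b))) (imp (dia (box a)) (neg (box (imp a b))))) := by
    refine ded3 S ?_
    refine Der.mp S (Der.hyp S (Or.inl (Or.inr rfl))) ?_
    exact Der.mp S (Der.mp S (Der.thm S h3) (Der.hyp S (Or.inr rfl)))
      (Der.hyp S (Or.inl (Or.inl rfl)))
  refine ded3 S ?_
  refine Der.mp S (Der.hyp S (Or.inl (Or.inl rfl))) ?_
  refine Der.mp S (Der.mp S (Der.thm S (ax_K S (dia (box a)) _)) ?_)
    (Der.mp S (Der.thm S (dia_box_persist (S := S) a)) (Der.hyp S (Or.inl (Or.inr rfl))))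
  refine Der.mp S (Der.thm S (box_mono (S := S) h4)) ?_
  exact Der.mp S (Der.thm S (ax_4 S _)) (Der.hyp S (Or.inr rfl))

include hS in
lemma not_dia_box_bot {H : M → Prop} (h : Der H (dia (box bot))) : Der H bot :=
  Der.mp S h (Der.thm S (provable_nec S (ax_T S bot)))

/-- boxing a derivation whose hypotheses are persistent -/
lemma Der.boxed {H : M → Prop} (hH : RE S H) (h : ∀ x, H x → Der H (box x)) {b : M}
    (hb : Der H b) : Der H (box b) := by
  have hQ : RE S (fun b => Der H (box b)) := (re_der' hH).comp RF.id.box'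
  refine hb.ind (Q := fun b => Der H (box b)) hQ ?_ h ?_
  · intro θ hθ
    exact Der.thm S (provable_nec S hθ)
  · intro η θ h1 h2
    exact Der.mp S (Der.mp S (Der.thm S (ax_K S _ _)) h2) h1

/-- applying `◇□` to a derivation -/
lemma Der.diaBoxed {H H' : M → Prop} (hH : RE S H') (h : ∀ x, H x → Der H' (dia (box x))) {b : M}
    (hb : Der H b) : Der H' (dia (box b)) := by
  have hQ : RE S (fun b => Der H' (dia (box b))) := (re_der' hH).comp RF.id.box'.dia'
  refine hb.ind (Q := fun b => Der H' (dia (box b))) hQ ?_ h ?_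
  · intro θ hθ
    exact Der.thm S (provable_mp S (provable_nec S hθ) (dia_intro (S := S) _))
  · intro η θ h1 h2
    exact Der.mp S (Der.mp S (Der.thm S (dia_box_K (S := S) η θ)) h2) h1

end Theorems

/-! ### Finite types and Lindenbaum's lemma -/

/-- the formulas `ψ < i` or their negations, according to membership in `w` -/
def Gam (w i θ : M) : Prop := ∃ ψ, ψ < i ∧ ((Mem ψ w ∧ θ = ψ) ∨ (¬ Mem ψ w ∧ θ = neg ψ))

variable {S}

lemma rec_gam {f g h : M → M} (hf : RF S f) (hg : RF S g) (hh : RF S h) :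
    Rec S (fun z => Gam (f z) (g z) (h z)) := by
  unfold Gam
  refine Rec.bex (P := fun z ψ => (Mem ψ (f z) ∧ h z = ψ) ∨ (¬ Mem ψ (f z) ∧ h z = neg ψ)) ?_ hg
  exact ((Rec.Mem RF.snd' (hf.comp RF.fst')).and (Rec.eq (hh.comp RF.fst') RF.snd')).or
    ((Rec.Mem RF.snd' (hf.comp RF.fst')).not.and (Rec.eq (hh.comp RF.fst') RF.snd'.neg'))

lemma lindenbaum {H : M → Prop} (hH : RE S H) {L B : M}
    (hB : ∀ P : M → Prop, RE S P → ∃ s, s < B ∧ ∀ i, Mem i s ↔ i < L ∧ P i)
    (hcons : ¬ Der H bot) : ∃ w, w < B ∧ ¬ Der (fun θ => H θ ∨ Gam w L θ) bot := by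
  by_contra hcon
  push Not at hcon
  have hG : ∀ (w i : M), RE S (fun θ => H θ ∨ Gam w i θ) := fun w i =>
    hH.or (rec_gam (RF.const w) (RF.const i) RF.id).re
  -- the property of `i` used for the downward induction
  have hre : RE S (fun k => ∀ i, i < L + 1 → (¬ i + k = L ∨
      ∀ w, w < B → Der (fun θ => H θ ∨ Gam w i θ) bot)) := by
    refine RE.ball (P := fun k i => ¬ i + k = L ∨
      ∀ w, w < B → Der (fun θ => H θ ∨ Gam w i θ) bot) ?_ (RF.const _)
    refine (Rec.eq (RF.snd'.add RF.fst') (RF.const L)).not.re.or ?_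
    refine RE.ball (P := fun z w => Der (fun θ => H θ ∨ Gam w (snd z) θ) bot) ?_ (RF.const B)
    have := re_der (S := S) (H := fun c θ => H θ ∨ Gam (fst c) (snd c) θ)
      ((hH.comp RF.snd').or (rec_gam (RF.fst RF.fst') (RF.snd RF.fst') RF.snd').re)
    refine (this.comp₂ (P := fun c θ => Der (fun θ => H θ ∨ Gam (fst c) (snd c) θ) θ)
      (RF.snd'.pair' (RF.snd RF.fst')) (RF.const bot)).congr fun z => ?_
    simp
  have key := hre.induction ?_ ?_
  · -- conclusion
    have h0 := key L 0 (lt_of_le_of_lt (zero_le'' L) (lt_succ_self' L))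
    rcases h0 with h0 | h0
    · simp at h0
    · obtain ⟨s, hs, _⟩ := hB (fun _ => False) (re_false S)
      apply hcons
      refine (h0 s hs).mono ?_
      rintro x (h | ⟨ψ, hψ, _⟩)
      · exact h
      · exact absurd hψ (not_lt.mpr (zero_le'' ψ))
  · -- start
    intro i _
    by_cases hi : i = L
    · right
      intro w hw
      rw [hi]
      exact hcon w hw
    · left
      simpa using hi
  · -- step
    intro k hk i _
    by_cases hik : i + (k + 1) = L
    · right
      intro w hw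
      have hi1 : i + 1 + k = L := by rw [← hik]; ring
      have hiL : i < L := (Disc.discrete _ _).mpr (by rw [← hi1]; exact le_add_r _ _)
      have hD : ∀ w, w < B → Der (fun θ => H θ ∨ Gam w (i + 1) θ) bot := by
        rcases hk (i + 1) (by rw [lt_succ_iff, ← hi1]; exact le_add_r _ _) with h | h
        · exact absurd hi1 h
        · exact h
      obtain ⟨w0, hw0, hm0⟩ := hB (fun j => Mem j w ∧ j < i)
        ((Rec.Mem RF.id (RF.const w)).and (Rec.lt RF.id (RF.const i))).re
      obtain ⟨w1, hw1, hm1⟩ := hB (fun j => (Mem j w ∧ j < i) ∨ j = i)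
        (((Rec.Mem RF.id (RF.const w)).and (Rec.lt RF.id (RF.const i))).or
          (Rec.eq RF.id (RF.const i))).re
      refine Der.cases (S := S) (a := i) (hG w i) ?_ ?_
      · refine (hD w1 hw1).mono ?_
        rintro θ (h | ⟨ψ, hψ, h⟩)
        · exact Or.inl (Or.inl h)
        · rw [lt_succ_iff] at hψ
          rcases hψ.lt_or_eq with hψ | rfl
          · left; right
            refine ⟨ψ, hψ, ?_⟩
            have e : Mem ψ w1 ↔ Mem ψ w := by
              rw [hm1]
              constructor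
              · rintro ⟨_, h | h⟩
                · exact h.1
                · exact absurd h hψ.ne
              · intro h; exact ⟨hψ.trans hiL, Or.inl ⟨h, hψ⟩⟩
            rw [e] at h
            exact h
          · right
            have : Mem ψ w1 := (hm1 ψ).mpr ⟨hiL, Or.inr rfl⟩
            rcases h with h | h
            · exact h.2
            · exact absurd this h.1
      · refine (hD w0 hw0).mono ?_
        rintro θ (h | ⟨ψ, hψ, h⟩)
        · exact Or.inl (Or.inl h)
        · rw [lt_succ_iff] at hψ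
          rcases hψ.lt_or_eq with hψ | rfl
          · left; right
            refine ⟨ψ, hψ, ?_⟩
            have e : Mem ψ w0 ↔ Mem ψ w := by
              rw [hm0]
              constructor
              · rintro ⟨_, h⟩; exact h.1
              · intro h; exact ⟨hψ.trans hiL, h, hψ⟩
            rw [e] at h
            exact h
          · right
            have : ¬ Mem ψ w0 := by
              rw [hm0]
              rintro ⟨_, _, h⟩
              exact lt_irrefl _ h
            rcases h with h | h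
            · exact absurd h.1 this
            · exact h.2
    · exact Or.inl hik

include hS in
lemma sub_lt {φ ψ : M} (h : IsSub φ ψ) : ψ < φ + 1 := by
  obtain ⟨s, hs⟩ := exists_code (S := S) (P := fun x => x < φ + 1)
    (Rec.lt RF.id (RF.const _)).re (φ + 1)
  have hs' : ∀ i, Mem i s ↔ i < φ + 1 := fun i => by rw [hs, and_self]
  rw [← hs']
  apply h s
  · rw [hs']; exact lt_succ_self' _
  · intro a b hab
    rw [hs'] at hab ⊢
    rw [hs']
    exact ⟨(left_lt_imp a b).trans hab, (right_lt_imp a b).trans hab⟩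
  · intro a ha
    rw [hs'] at ha ⊢
    exact (lt_box a).trans ha

/-! ### The main construction -/

theorem weakCompleteness : WeakCompletenessS42 M S := by
  intro φ hφ
  set L : M := φ + 1 with hL
  have hφL : φ < L := lt_succ_self' φ
  -- a bound for the formulas `◇□ψ` with `ψ < L`
  obtain ⟨L', hL'⟩ : ∃ L' : M, ∀ ψ, ψ < L → dia (box ψ) < L' := by
    obtain ⟨u, hu⟩ := RE.collection (S := S) (P := fun x y => y = dia (box x))
      (Rec.eq RF.snd' RF.fst'.box'.dia') L (fun x _ => ⟨_, rfl⟩)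
    refine ⟨u, fun ψ hψ => ?_⟩
    obtain ⟨y, hy, rfl⟩ := hu ψ hψ
    exact hy
  obtain ⟨B', hB'⟩ := finite_comprehension (S := S) L'
  obtain ⟨B, hB⟩ := finite_comprehension (S := S) L
  -- the root over the larger set of formulas
  have hcons0 : ¬ Der (fun θ => θ = φ) bot := fun h => hφ (ded1 S h)
  obtain ⟨u, _, hu⟩ := lindenbaum (re_eq S φ) hB' hcons0
  -- the background theory
  let S0 : M → Prop := fun θ => ∃ ψ, ψ < L ∧ ((Mem (dia (box ψ)) u ∧ θ = dia (box ψ)) ∨
    (¬ Mem (dia (box ψ)) u ∧ θ = neg (dia (box ψ))))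
  have hS0 : Rec S S0 := by
    refine Rec.bex (P := fun θ ψ => (Mem (dia (box ψ)) u ∧ θ = dia (box ψ)) ∨
      (¬ Mem (dia (box ψ)) u ∧ θ = neg (dia (box ψ)))) ?_ (RF.const L)
    have a1 : RF S (fun z : M => dia (box (snd z))) := RF.snd'.box'.dia'
    exact ((Rec.Mem a1 (RF.const u)).and (Rec.eq RF.fst' a1)).or
      ((Rec.Mem a1 (RF.const u)).not.and (Rec.eq RF.fst' a1.neg'))
  have hcons1 : ¬ Der (fun θ => θ = φ ∨ S0 θ) bot := by
    intro h
    apply hu
    refine h.mono ?_
    rintro θ (h | ⟨ψ, hψ, h⟩)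
    · exact Or.inl h
    · exact Or.inr ⟨dia (box ψ), hL' ψ hψ, h⟩
  -- the worlds
  have hG : ∀ w : M, RE S (fun θ => S0 θ ∨ Gam w L θ) := fun w =>
    hS0.re.or (rec_gam (RF.const w) (RF.const L) RF.id).re
  have hre : RE S (fun w => Der (fun θ => S0 θ ∨ Gam w L θ) bot) := by
    have := re_der (S := S) (H := fun w θ => S0 θ ∨ Gam w L θ)
      ((hS0.comp RF.snd').re.or (rec_gam RF.fst' (RF.const L) RF.snd').re)
    exact this.comp₂ (P := fun w θ => Der (fun θ => S0 θ ∨ Gam w L θ) θ) RF.id (RF.const bot)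
  obtain ⟨s, hs⟩ := exists_code hre B
  let W : Set M := {w | w < B ∧ ¬ Mem w s}
  have hWrec : Rec S (fun w => w ∈ W) :=
    (Rec.lt RF.id (RF.const B)).and (Rec.Mem RF.id (RF.const s)).not
  have hW : ∀ w, w ∈ W ↔ w < B ∧ ¬ Der (fun θ => S0 θ ∨ Gam w L θ) bot := by
    intro w
    change (w < B ∧ ¬ Mem w s) ↔ _
    rw [hs]
    tauto
  let R : Set M := {z | (fst z ∈ W ∧ snd z ∈ W) ∧ ∀ ψ, ψ < L → (box ψ < L →
    (Mem (box ψ) (fst z) → Mem (box ψ) (snd z)))}
  have hRrec : Rec S (fun z => z ∈ R) := by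
    refine ((hWrec.comp RF.fst').and (hWrec.comp RF.snd')).and ?_
    refine Rec.ball (P := fun z ψ => (box ψ < L →
      (Mem (box ψ) (fst z) → Mem (box ψ) (snd z)))) ?_ (RF.const L)
    exact (Rec.lt RF.snd'.box' (RF.const L)).imp ((Rec.Mem RF.snd'.box' (RF.fst RF.fst')).imp
      (Rec.Mem RF.snd'.box' (RF.snd RF.fst')))
  have hR : ∀ w v, pair w v ∈ R ↔ (w ∈ W ∧ v ∈ W) ∧ ∀ ψ, box ψ < L →
      Mem (box ψ) w → Mem (box ψ) v := by
    intro w v
    change ((fst (pair w v) ∈ W ∧ snd (pair w v) ∈ W) ∧ ∀ ψ, ψ < L → (box ψ < L →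
      (Mem (box ψ) (fst (pair w v)) → Mem (box ψ) (snd (pair w v))))) ↔ _
    rw [fst_pair, snd_pair]
    constructor
    · rintro ⟨h1, h2⟩
      exact ⟨h1, fun ψ hψ => h2 ψ ((lt_box ψ).trans hψ) hψ⟩
    · rintro ⟨h1, h2⟩
      exact ⟨h1, fun ψ _ hψ => h2 ψ hψ⟩
  let V : Set M := {z | Mem (snd z) (fst z)}
  have hVrec : Rec S (fun z => z ∈ V) := Rec.Mem RF.snd' RF.fst'
  have hV : ∀ w ψ, pair w ψ ∈ V ↔ Mem ψ w := by
    intro w ψ
    change Mem (snd (pair w ψ)) (fst (pair w ψ)) ↔ _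
    rw [fst_pair, snd_pair]
  -- membership in a world is derivability
  have hin : ∀ w ψ, ψ < L → Mem ψ w → Der (fun θ => S0 θ ∨ Gam w L θ) ψ :=
    fun w ψ hψ h => Der.hyp S (Or.inr ⟨ψ, hψ, Or.inl ⟨h, rfl⟩⟩)
  have hout : ∀ w ψ, ψ < L → ¬ Mem ψ w → Der (fun θ => S0 θ ∨ Gam w L θ) (neg ψ) :=
    fun w ψ hψ h => Der.hyp S (Or.inr ⟨ψ, hψ, Or.inr ⟨h, rfl⟩⟩)
  have hmem : ∀ w ∈ W, ∀ ψ, ψ < L → (Mem ψ w ↔ Der (fun θ => S0 θ ∨ Gam w L θ) ψ) := by
    intro w hw ψ hψ
    refine ⟨hin w ψ hψ, fun h => ?_⟩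
    by_contra hn
    exact ((hW w).mp hw).2 (Der.mp S (hout w ψ hψ hn) h)
  -- the elements of the background theory are persistent
  have hpers : ∀ x, S0 x → Provable (imp x (box x)) := by
    rintro x ⟨ψ, _, ⟨_, rfl⟩ | ⟨_, rfl⟩⟩
    · exact dia_box_persist (S := S) ψ
    · exact neg_dia_box_persist (S := S) ψ
  -- the top world
  obtain ⟨c, hcW, hc⟩ : ∃ c ∈ W, ∀ w ∈ W, pair w c ∈ R := by
    let P1 : M → Prop := fun θ => S0 θ ∨ ∃ ψ, ψ < L ∧ ((Mem (dia (box ψ)) u ∧ θ = box ψ) ∨
      (¬ Mem (dia (box ψ)) u ∧ θ = neg (box ψ)))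
    have hP1 : RE S P1 := by
      refine hS0.re.or (Rec.re ?_)
      refine Rec.bex (P := fun θ ψ => (Mem (dia (box ψ)) u ∧ θ = box ψ) ∨
        (¬ Mem (dia (box ψ)) u ∧ θ = neg (box ψ))) ?_ (RF.const L)
      have a1 : RF S (fun z : M => dia (box (snd z))) := RF.snd'.box'.dia'
      have a2 : RF S (fun z : M => box (snd z)) := RF.snd'.box'
      exact ((Rec.Mem a1 (RF.const u)).and (Rec.eq RF.fst' a2)).or
        ((Rec.Mem a1 (RF.const u)).not.and (Rec.eq RF.fst' a2.neg'))
    have hcons : ¬ Der P1 bot := by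
      intro h
      have h1 : Der S0 (dia (box bot)) := by
        refine h.diaBoxed hS0.re ?_
        rintro x (hx | ⟨ψ, hψ, ⟨hm, rfl⟩ | ⟨hm, rfl⟩⟩)
        · exact Der.mp S (Der.thm S (dia_intro (S := S) _))
            (Der.mp S (Der.thm S (hpers x hx)) (Der.hyp S hx))
        · refine Der.mp S (Der.thm S (dia_mono (S := S) (ax_4 S ψ))) (Der.hyp S ?_)
          exact ⟨ψ, hψ, Or.inl ⟨hm, rfl⟩⟩
        · refine Der.mp S (Der.thm S (dia_intro (S := S) _)) ?_
          refine Der.mp S (Der.thm S (ax_DN S _)) (Der.hyp S ?_)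
          exact ⟨ψ, hψ, Or.inr ⟨hm, rfl⟩⟩
      exact hcons1 ((not_dia_box_bot (S := S) h1).mono fun _ h => Or.inr h)
    obtain ⟨c, hcB, hc⟩ := lindenbaum hP1 hB hcons
    have hcW : c ∈ W := by
      rw [hW]
      refine ⟨hcB, fun h => hc (h.mono ?_)⟩
      rintro θ (h | h)
      · exact Or.inl (Or.inl h)
      · exact Or.inr h
    refine ⟨c, hcW, fun w hw => ?_⟩
    rw [hR]
    refine ⟨⟨hw, hcW⟩, fun ψ hψ hm => ?_⟩
    by_contra hmc
    have hψL : ψ < L := (lt_box ψ).trans hψ
    by_cases hmu : Mem (dia (box ψ)) u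
    · refine hc (Der.mp S (η := box ψ) (Der.hyp S ?_) (Der.hyp S ?_))
      · exact Or.inr ⟨box ψ, hψ, Or.inr ⟨hmc, rfl⟩⟩
      · exact Or.inl (Or.inr ⟨ψ, hψL, Or.inl ⟨hmu, rfl⟩⟩)
    · refine ((hW w).mp hw).2 ?_
      refine Der.mp S (Der.mp S (Der.thm S (ax_T S _)) (Der.mp S (Der.thm S (ax_DN S _)) ?_))
        (hin w _ hψ hm)
      exact Der.hyp S (Or.inl ⟨ψ, hψL, Or.inr ⟨hmu, rfl⟩⟩)
  -- the world satisfying the formula
  obtain ⟨w0, hw0B, hw0⟩ := lindenbaum ((re_eq S φ).or hS0.re) hB hcons1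
  have hw0W : w0 ∈ W := by
    rw [hW]
    refine ⟨hw0B, fun h => hw0 (h.mono ?_)⟩
    rintro θ (h | h)
    · exact Or.inl (Or.inr h)
    · exact Or.inr h
  have hw0φ : Mem φ w0 := by
    by_contra hn
    refine hw0 (Der.mp S (η := φ) (Der.hyp S ?_) (Der.hyp S (Or.inl (Or.inl rfl))))
    exact Or.inr ⟨φ, hφL, Or.inr ⟨hn, rfl⟩⟩
  refine ⟨W, R, V, ⟨hWrec, hRrec, hVrec, ⟨w0, hw0W⟩, ?_, ?_, ?_, ?_⟩, ⟨?_, ?_, ?_⟩,
    w0, hw0W, (hV _ _).mpr hw0φ⟩
  · -- `R ⊆ W × W`
    intro z hz
    exact ⟨fst z, hz.1.1, snd z, hz.1.2, (pair_fst_snd S z).symm⟩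
  · -- `⊥`
    intro w hw hsub h
    rw [hV] at h
    exact ((hW w).mp hw).2 (hin w bot (sub_lt (S := S) hsub) h)
  · -- implication
    intro w hw ψ θ hsub
    have hlt : imp ψ θ < L := sub_lt (S := S) hsub
    have hψ : ψ < L := (left_lt_imp ψ θ).trans hlt
    have hθ : θ < L := (right_lt_imp ψ θ).trans hlt
    rw [hV, hV, hV]
    constructor
    · intro h1 h2
      rw [hmem w hw _ hlt] at h1
      rw [hmem w hw _ hψ] at h2
      rw [hmem w hw _ hθ]
      exact Der.mp S h1 h2
    · intro h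
      rw [hmem w hw _ hlt]
      by_cases h2 : Mem ψ w
      · exact Der.mp S (Der.thm S (ax_K1 S θ ψ)) (hin w θ hθ (h h2))
      · refine Der.ded (S := S) (hG w) (Der.efq S ?_)
        refine Der.mp S ((hout w ψ hψ h2).mono fun _ h => Or.inl h) (Der.hyp S (Or.inr rfl))
  · -- box
    intro w hw ψ hsub
    have hlt : box ψ < L := sub_lt (S := S) hsub
    have hψ : ψ < L := (lt_box ψ).trans hlt
    rw [hV]
    constructor
    · intro h v hwv
      rw [hR] at hwv
      have h1 := hwv.2 ψ hlt h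
      rw [hV, hmem v hwv.1.2 ψ hψ]
      exact Der.mp S (Der.thm S (ax_T S ψ)) (hin v _ hlt h1)
    · intro h
      by_contra hn
      let P2 : M → Prop := fun θ => S0 θ ∨ ∃ χ, χ < L ∧ ((box χ < L ∧ Mem (box χ) w) ∧ θ = box χ)
      have hP2 : RE S P2 := by
        refine hS0.re.or (Rec.re ?_)
        refine Rec.bex (P := fun θ χ => (box χ < L ∧ Mem (box χ) w) ∧ θ = box χ) ?_ (RF.const L)
        exact ((Rec.lt RF.snd'.box' (RF.const L)).and (Rec.Mem RF.snd'.box' (RF.const w))).and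
          (Rec.eq RF.fst' RF.snd'.box')
      have hcons : ¬ Der (fun θ => P2 θ ∨ θ = neg ψ) bot := by
        intro hbot
        have h1 : Der P2 ψ := Der.byContra hP2 hbot
        have h2 : Der P2 (box ψ) := by
          refine h1.boxed hP2 ?_
          rintro x (hx | ⟨χ, hχ, hm, rfl⟩)
          · exact Der.mp S (Der.thm S (hpers x hx)) (Der.hyp S (Or.inl hx))
          · exact Der.mp S (Der.thm S (ax_4 S χ)) (Der.hyp S (Or.inr ⟨χ, hχ, hm, rfl⟩))
        have h3 : Der (fun θ => S0 θ ∨ Gam w L θ) (box ψ) := by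
          refine h2.mono ?_
          rintro x (hx | ⟨χ, hχ, hm, rfl⟩)
          · exact Or.inl hx
          · exact Or.inr ⟨box χ, hm.1, Or.inl ⟨hm.2, rfl⟩⟩
        exact hn ((hmem w hw _ hlt).mpr h3)
      obtain ⟨v, hvB, hv⟩ := lindenbaum (hP2.or (re_eq S (neg ψ))) hB hcons
      have hvW : v ∈ W := by
        rw [hW]
        refine ⟨hvB, fun h => hv (h.mono ?_)⟩
        rintro θ (h | h)
        · exact Or.inl (Or.inl (Or.inl h))
        · exact Or.inr h
      have hwv : pair w v ∈ R := by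
        rw [hR]
        refine ⟨⟨hw, hvW⟩, fun χ hχ hm => ?_⟩
        by_contra hmv
        refine hv (Der.mp S (η := box χ) (Der.hyp S ?_) (Der.hyp S ?_))
        · exact Or.inr ⟨box χ, hχ, Or.inr ⟨hmv, rfl⟩⟩
        · exact Or.inl (Or.inl (Or.inr ⟨χ, (lt_box χ).trans hχ, ⟨hχ, hm⟩, rfl⟩))
      have hψv := h v hwv
      rw [hV] at hψv
      refine hv (Der.mp S (η := ψ) (Der.hyp S (Or.inl (Or.inr rfl))) (Der.hyp S ?_))
      exact Or.inr ⟨ψ, hψ, Or.inl ⟨hψv, rfl⟩⟩
  · -- reflexivity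
    intro w hw
    rw [hR]
    exact ⟨⟨hw, hw⟩, fun _ _ h => h⟩
  · -- transitivity
    intro a b c hab hbc
    rw [hR] at hab hbc ⊢
    exact ⟨⟨hab.1.1, hbc.1.2⟩, fun ψ hψ h => hbc.2 ψ hψ (hab.2 ψ hψ h)⟩
  · -- directedness
    intro a b b' hab hab'
    rw [hR] at hab hab'
    exact ⟨c, hc b hab.1.2, hc b' hab'.1.2⟩

end Pool.Agent.RM
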