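import Pool.Agent.RM.Finite

set_option autoImplicit false
set_option linter.unusedSimpArgs false
set_option linter.unusedSectionVars false

/-!
# Modal formulas and derivations inside a model of RCA₀
-/

namespace Pool.Agent.RM

variable {M : Type*} [CommSemiring M] [LinearOrder M] [Disc M]

/-! ### Codes of formulas -/

section Codes

lemma four_mul_inj {x y r s : M} (h : 4 * x + r = 4 * y + s) (hr : r < 4) (hs : s < 4) :
    x = y ∧ r = s := by
  have h0 := zero_le'' r
  have h1 := zero_le'' s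
  have key : ∀ x y r s : M, 4 * x + r = 4 * y + s → r < 4 → 0 ≤ s → y ≤ x := by
    intro x y r s h hr hs
    by_contra hxy
    push Not at hxy
    have := (Disc.discrete _ _).mp hxy
    simp only [tr_le, tr_lt, tr_eq, map_add, map_zero, map_mul, map_one, map_ofNat] at *
    linarith
  have e : x = y := le_antisymm (key y x s r h.symm hs h0) (key x y r s h hr h1)
  subst e
  exact ⟨rfl, add_left_cancel h⟩

lemma lt4_0 : (0 : M) < 4 := by
  simp only [tr_lt, map_zero, map_ofNat]; norm_num
lemma lt4_1 : (1 : M) < 4 := by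
  simp only [tr_lt, map_one, map_ofNat]; norm_num
lemma lt4_2 : (2 : M) < 4 := by
  simp only [tr_lt, map_one, map_ofNat]; norm_num
lemma lt4_3 : (3 : M) < 4 := by
  simp only [tr_lt, map_one, map_ofNat]; norm_num

lemma ne01 : (0 : M) ≠ 1 := zero_ne_one
lemma ne02 : (0 : M) ≠ 2 := by
  rw [Ne, tr_eq]; simp only [map_zero, map_ofNat]; norm_num
lemma ne03 : (0 : M) ≠ 3 := by
  rw [Ne, tr_eq]; simp only [map_zero, map_ofNat]; norm_num
lemma ne12 : (1 : M) ≠ 2 := by
  rw [Ne, tr_eq]; simp only [map_one, map_ofNat]; norm_num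
lemma ne13 : (1 : M) ≠ 3 := by
  rw [Ne, tr_eq]; simp only [map_one, map_ofNat]; norm_num
lemma ne23 : (2 : M) ≠ 3 := by
  rw [Ne, tr_eq]; simp only [map_ofNat]; norm_num

lemma four_eq : (four M) = 4 := by unfold four; norm_num
lemma bot_eq : (bot : M) = 4 * 0 + 0 := by unfold bot; ring
lemma pvar_eq (i : M) : pvar i = 4 * i + 1 := by unfold pvar; rw [four_eq]
lemma pcst_eq (i : M) : pcst i = 4 * i + 2 := by unfold pcst; rw [four_eq]; norm_num
lemma imp_eq (a b : M) : imp a b = 4 * pair a b + 3 := by unfold imp; rw [four_eq]; norm_num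
lemma box_eq (a : M) : box a = 4 * (a + 1) + 0 := by unfold box; rw [four_eq]; ring

lemma imp_inj {a b c d : M} (h : imp a b = imp c d) : a = c ∧ b = d := by
  rw [imp_eq, imp_eq] at h
  exact pair_inj (four_mul_inj h lt4_3 lt4_3).1

lemma box_inj {a b : M} (h : box a = box b) : a = b := by
  rw [box_eq, box_eq] at h
  exact add_right_cancel (four_mul_inj h lt4_0 lt4_0).1

lemma pvar_inj {a b : M} (h : pvar a = pvar b) : a = b := by
  rw [pvar_eq, pvar_eq] at h
  exact (four_mul_inj h lt4_1 lt4_1).1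

lemma bot_ne_pvar {i : M} : (bot : M) ≠ pvar i := fun h => by
  rw [bot_eq, pvar_eq] at h; exact ne01 (four_mul_inj h lt4_0 lt4_1).2
lemma bot_ne_pcst {i : M} : (bot : M) ≠ pcst i := fun h => by
  rw [bot_eq, pcst_eq] at h; exact ne02 (four_mul_inj h lt4_0 lt4_2).2
lemma bot_ne_imp {a b : M} : (bot : M) ≠ imp a b := fun h => by
  rw [bot_eq, imp_eq] at h; exact ne03 (four_mul_inj h lt4_0 lt4_3).2
lemma bot_ne_box {a : M} : (bot : M) ≠ box a := fun h => by
  rw [bot_eq, box_eq] at h
  have := (four_mul_inj h lt4_0 lt4_0).1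
  exact absurd (lt_succ_self' a) (by rw [← this]; exact not_lt.mpr (zero_le'' a))
lemma pvar_ne_pcst {i j : M} : (pvar i : M) ≠ pcst j := fun h => by
  rw [pvar_eq, pcst_eq] at h; exact ne12 (four_mul_inj h lt4_1 lt4_2).2
lemma pvar_ne_imp {i a b : M} : (pvar i : M) ≠ imp a b := fun h => by
  rw [pvar_eq, imp_eq] at h; exact ne13 (four_mul_inj h lt4_1 lt4_3).2
lemma pvar_ne_box {i a : M} : (pvar i : M) ≠ box a := fun h => by
  rw [pvar_eq, box_eq] at h; exact ne01 (four_mul_inj h lt4_1 lt4_0).2.symm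
lemma pcst_ne_imp {i a b : M} : (pcst i : M) ≠ imp a b := fun h => by
  rw [pcst_eq, imp_eq] at h; exact ne23 (four_mul_inj h lt4_2 lt4_3).2
lemma pcst_ne_box {i a : M} : (pcst i : M) ≠ box a := fun h => by
  rw [pcst_eq, box_eq] at h; exact ne02 (four_mul_inj h lt4_2 lt4_0).2.symm
lemma imp_ne_box {a b c : M} : (imp a b : M) ≠ box c := fun h => by
  rw [imp_eq, box_eq] at h; exact ne03 (four_mul_inj h lt4_3 lt4_0).2.symm

lemma lt_four_mul_add {x r : M} (hr : 0 < r) : x < 4 * x + r := by
  have := zero_le'' x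
  simp only [tr_le, tr_lt, tr_eq, map_add, map_zero, map_mul, map_one, map_ofNat] at *
  linarith

lemma left_lt_imp (a b : M) : a < imp a b := by
  rw [imp_eq]
  exact lt_of_le_of_lt (left_le_pair a b) (lt_four_mul_add (pos_iff.mpr ne03.symm))
lemma right_lt_imp (a b : M) : b < imp a b := by
  rw [imp_eq]
  exact lt_of_le_of_lt (right_le_pair a b) (lt_four_mul_add (pos_iff.mpr ne03.symm))
lemma lt_pcst (a : M) : a < pcst a := by
  rw [pcst_eq]; exact lt_four_mul_add (pos_iff.mpr ne02.symm)
lemma lt_box (a : M) : a < box a := by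
  unfold box; rw [four_eq]; exact lt_four_mul_add lt4_0
lemma bot_lt_succ (a : M) : bot < a + 1 := lt_of_le_of_lt (zero_le'' a) (lt_succ_self' a)

end Codes

variable {S : Set (Set M)} [hS : IsRCA S]

lemma RF.imp' {f g : M → M} (hf : RF S f) (hg : RF S g) : RF S (fun x => imp (f x) (g x)) :=
  ((RF.const (four M)).mul (hf.pair' hg)).add (RF.const (1 + 1 + 1))
lemma RF.box' {f : M → M} (hf : RF S f) : RF S (fun x => box (f x)) :=
  ((RF.const (four M)).mul hf).add (RF.const (four M))
lemma RF.pcst' {f : M → M} (hf : RF S f) : RF S (fun x => pcst (f x)) :=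
  ((RF.const (four M)).mul hf).add (RF.const (1 + 1))
lemma RF.neg' {f : M → M} (hf : RF S f) : RF S (fun x => neg (f x)) :=
  hf.imp' (RF.const _)
lemma RF.dia' {f : M → M} (hf : RF S f) : RF S (fun x => dia (f x)) :=
  (hf.neg'.box').neg'

/-- quantification over the elements of a coded finite set -/
lemma RE.ballMem {P : M → M → Prop} {f : M → M} (hP : RE S (fun z => P (fst z) (snd z)))
    (hf : RF S f) : RE S (fun c => ∀ x, Mem x (f c) → P c x) := by
  refine (RE.ball (P := fun c x => ¬ Mem x (f c) ∨ P c x) (f := f) ?_ hf).congr fun c => ?_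
  · exact (Rec.Mem RF.snd' (hf.comp RF.fst')).not.re.or hP
  · constructor
    · intro h x hx
      rcases h x (lt_of_Mem S hx) with h | h
      · exact absurd hx h
      · exact h
    · intro h x _
      by_cases hx : Mem x (f c)
      · exact Or.inr (h x hx)
      · exact Or.inl hx

/-! ### `Provable` is r.e. -/

lemma rec_isAxiom : Rec S (IsAxiom : M → Prop) := by
  unfold IsAxiom
  exact (Rec.eq RF.id (RF.const _)).or ((Rec.eq RF.id (RF.const _)).or
    ((Rec.eq RF.id (RF.const _)).or ((Rec.eq RF.id (RF.const _)).or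
    ((Rec.eq RF.id (RF.const _)).or ((Rec.eq RF.id (RF.const _)).or
    (Rec.eq RF.id (RF.const _)))))))

lemma re_isSubst : RE S (IsSubst : M → Prop) := by
  have h1 : RE S (fun f : M => ∀ u, Mem u f → ∀ v, Mem v f → (¬ fst u = fst v ∨ snd u = snd v)) := by
    refine RE.ballMem (P := fun f u => ∀ v, Mem v f → (¬ fst u = fst v ∨ snd u = snd v)) ?_ RF.id
    refine RE.ballMem (P := fun z v => (¬ fst (snd z) = fst v ∨ snd (snd z) = snd v)) ?_ RF.fst'
    exact ((Rec.eq (RF.fst (RF.snd RF.fst')) (RF.fst RF.snd')).not.or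
      (Rec.eq (RF.snd (RF.snd RF.fst')) (RF.snd RF.snd'))).re
  have h2 : RE S (fun f : M => ∀ u, Mem u f → (¬ fst u = bot ∨ snd u = bot)) := by
    refine RE.ballMem (P := fun f u => (¬ fst u = bot ∨ snd u = bot)) ?_ RF.id
    exact ((Rec.eq (RF.fst RF.snd') (RF.const _)).not.or (Rec.eq (RF.snd RF.snd')
      (RF.const _))).re
  have h3 : RE S (fun f : M => ∀ u, Mem u f → ∀ i, i < u + 1 →
      (¬ fst u = pcst i ∨ snd u = pcst i)) := by
    refine RE.ballMem (P := fun f u => ∀ i, i < u + 1 →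
      (¬ fst u = pcst i ∨ snd u = pcst i)) ?_ RF.id
    refine RE.ball (P := fun z i => (¬ fst (snd z) = pcst i ∨ snd (snd z) = pcst i)) ?_
      (RF.add RF.snd' (RF.const 1))
    exact ((Rec.eq (RF.fst (RF.snd RF.fst')) (RF.pcst' RF.snd')).not.or
      (Rec.eq (RF.snd (RF.snd RF.fst')) (RF.pcst' RF.snd'))).re
  have h4 : RE S (fun f : M => ∀ u, Mem u f → ∀ i, i < u + 1 → ∀ j, j < u + 1 →
      (¬ fst u = imp i j ∨ ∃ i' j', Mem (pair i i') f ∧ Mem (pair j j') f ∧
        snd u = imp i' j')) := by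
    refine RE.ballMem (P := fun f u => ∀ i, i < u + 1 → ∀ j, j < u + 1 →
      (¬ fst u = imp i j ∨ ∃ i' j', Mem (pair i i') f ∧ Mem (pair j j') f ∧
        snd u = imp i' j')) ?_ RF.id
    refine RE.ball (P := fun z i => ∀ j, j < snd z + 1 →
      (¬ fst (snd z) = imp i j ∨ ∃ i' j', Mem (pair i i') (fst z) ∧ Mem (pair j j') (fst z) ∧
        snd (snd z) = imp i' j')) ?_ (RF.add RF.snd' (RF.const 1))
    refine RE.ball (P := fun z j => (¬ fst (snd (fst z)) = imp (snd z) j ∨
      ∃ i' j', Mem (pair (snd z) i') (fst (fst z)) ∧ Mem (pair j j') (fst (fst z)) ∧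
        snd (snd (fst z)) = imp i' j')) ?_ (RF.add (RF.snd RF.fst') (RF.const 1))
    refine RE.or ?_ ?_
    · exact (Rec.eq (RF.fst (RF.snd (RF.fst RF.fst'))) (RF.imp' (RF.snd RF.fst') RF.snd')).not.re
    · refine RE.ex (P := fun z i' => ∃ j', Mem (pair (snd (fst z)) i') (fst (fst (fst z))) ∧
        Mem (pair (snd z) j') (fst (fst (fst z))) ∧ snd (snd (fst (fst z))) = imp i' j') ?_
      refine RE.ex (P := fun z j' => Mem (pair (snd (fst (fst z))) (snd z))
        (fst (fst (fst (fst z)))) ∧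
        Mem (pair (snd (fst z)) j') (fst (fst (fst (fst z)))) ∧
          snd (snd (fst (fst (fst z)))) = imp (snd z) j') ?_
      have a1 : RF S (fun z : M => snd (fst (fst (fst z)))) :=
        RF.snd (RF.fst (RF.fst RF.fst'))
      have a2 : RF S (fun z : M => snd (fst z)) := RF.snd RF.fst'
      have a3 : RF S (fun z : M => fst (fst (fst (fst (fst z))))) :=
        RF.fst (RF.fst (RF.fst (RF.fst RF.fst')))
      have a4 : RF S (fun z : M => snd (fst (fst z))) := RF.snd (RF.fst RF.fst')
      have a5 : RF S (fun z : M => snd (snd (fst (fst (fst (fst z)))))) :=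
        RF.snd (RF.snd (RF.fst (RF.fst (RF.fst RF.fst'))))
      exact ((Rec.Mem (a1.pair' a2) a3).and ((Rec.Mem (a4.pair' RF.snd') a3).and
        (Rec.eq a5 (a2.imp' RF.snd')))).re
  have h5 : RE S (fun f : M => ∀ u, Mem u f → ∀ i, i < u + 1 →
      (¬ fst u = box i ∨ ∃ i', Mem (pair i i') f ∧ snd u = box i')) := by
    refine RE.ballMem (P := fun f u => ∀ i, i < u + 1 →
      (¬ fst u = box i ∨ ∃ i', Mem (pair i i') f ∧ snd u = box i')) ?_ RF.id
    refine RE.ball (P := fun z i => (¬ fst (snd z) = box i ∨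
      ∃ i', Mem (pair i i') (fst z) ∧ snd (snd z) = box i')) ?_ (RF.add RF.snd' (RF.const 1))
    refine RE.or ?_ ?_
    · exact (Rec.eq (RF.fst (RF.snd RF.fst')) (RF.box' RF.snd')).not.re
    · refine RE.ex (P := fun z i' => Mem (pair (snd z) i') (fst (fst z)) ∧
        snd (snd (fst z)) = box i') ?_
      exact ((Rec.Mem ((RF.snd RF.fst').pair' RF.snd') (RF.fst (RF.fst RF.fst'))).and
        (Rec.eq (RF.snd (RF.snd (RF.fst RF.fst'))) (RF.box' RF.snd'))).re
  refine (h1.and (h2.and (h3.and (h4.and h5)))).congr fun f => ?_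
  constructor
  · rintro ⟨h1, h2, h3, h4, h5⟩
    refine ⟨?_, ?_, ?_, ?_, ?_⟩
    · intro x y y' hx hy
      have := h1 _ hx _ hy
      simpa using this
    · intro y hy
      have := h2 _ hy
      simpa using this
    · intro i y hy
      have := h3 _ hy i (lt_succ_iff.mpr ((lt_pcst i).le.trans (left_le_pair _ _)))
      simpa using this
    · intro a b y hy
      have := h4 _ hy a (lt_succ_iff.mpr ((left_lt_imp a b).le.trans (left_le_pair _ _)))
        b (lt_succ_iff.mpr ((right_lt_imp a b).le.trans (left_le_pair _ _)))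
      simpa using this
    · intro a y hy
      have := h5 _ hy a (lt_succ_iff.mpr ((lt_box a).le.trans (left_le_pair _ _)))
      simpa using this
  · rintro ⟨h1, h2, h3, h4, h5⟩
    refine ⟨?_, ?_, ?_, ?_, ?_⟩
    · intro u hu v hv
      by_cases h : fst u = fst v
      · refine Or.inr (h1 (fst u) _ _ ?_ ?_)
        · rwa [pair_fst_snd S]
        · rwa [h, pair_fst_snd S]
      · exact Or.inl h
    · intro u hu
      by_cases h : fst u = bot
      · refine Or.inr (h2 _ ?_)
        rwa [← h, pair_fst_snd S]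
      · exact Or.inl h
    · intro u hu i _
      by_cases h : fst u = pcst i
      · refine Or.inr (h3 _ _ ?_)
        rwa [← h, pair_fst_snd S]
      · exact Or.inl h
    · intro u hu i _ j _
      by_cases h : fst u = imp i j
      · refine Or.inr (h4 i j _ ?_)
        rwa [← h, pair_fst_snd S]
      · exact Or.inl h
    · intro u hu i _
      by_cases h : fst u = box i
      · refine Or.inr (h5 i _ ?_)
        rwa [← h, pair_fst_snd S]
      · exact Or.inl h

lemma re_substInst : RE S (fun z : M => SubstInst (fst z) (snd z)) := by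
  unfold SubstInst
  refine RE.ex (P := fun z f => IsSubst f ∧ Mem (pair (fst z) (snd z)) f) ?_
  exact (re_isSubst.comp RF.snd').and
    (Rec.Mem ((RF.fst RF.fst').pair' (RF.snd RF.fst')) RF.snd').re

lemma re_isDerivation : RE S (IsDerivation : M → Prop) := by
  have : RE S (fun d : M => ∀ u, Mem u d → (IsAxiom (snd u) ∨
    (∃ j k η, j < fst u ∧ k < fst u ∧ Mem (pair j η) d ∧ Mem (pair k (imp η (snd u))) d) ∨
    (∃ j η, j < fst u ∧ Mem (pair j η) d ∧ snd u = box η) ∨
    (∃ j η, j < fst u ∧ Mem (pair j η) d ∧ SubstInst η (snd u)))) := by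
    refine RE.ballMem (P := fun d u => (IsAxiom (snd u) ∨
      (∃ j k η, j < fst u ∧ k < fst u ∧ Mem (pair j η) d ∧ Mem (pair k (imp η (snd u))) d) ∨
      (∃ j η, j < fst u ∧ Mem (pair j η) d ∧ snd u = box η) ∨
      (∃ j η, j < fst u ∧ Mem (pair j η) d ∧ SubstInst η (snd u)))) ?_ RF.id
    refine RE.or ?_ (RE.or ?_ (RE.or ?_ ?_))
    · exact (rec_isAxiom.comp (RF.snd RF.snd')).re
    · refine RE.ex (P := fun z j => ∃ k η, j < fst (snd z) ∧ k < fst (snd z) ∧
        Mem (pair j η) (fst z) ∧ Mem (pair k (imp η (snd (snd z)))) (fst z)) ?_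
      refine RE.ex (P := fun z k => ∃ η, snd z < fst (snd (fst z)) ∧ k < fst (snd (fst z)) ∧
        Mem (pair (snd z) η) (fst (fst z)) ∧
          Mem (pair k (imp η (snd (snd (fst z))))) (fst (fst z))) ?_
      refine RE.ex (P := fun z η => snd (fst z) < fst (snd (fst (fst z))) ∧
        snd z < fst (snd (fst (fst z))) ∧
        Mem (pair (snd (fst z)) η) (fst (fst (fst z))) ∧
          Mem (pair (snd z) (imp η (snd (snd (fst (fst z)))))) (fst (fst (fst z)))) ?_
      have a1 : RF S (fun z : M => snd (fst (fst z))) := RF.snd (RF.fst RF.fst')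
      have a2 : RF S (fun z : M => fst (snd (fst (fst (fst z))))) :=
        RF.fst (RF.snd (RF.fst (RF.fst RF.fst')))
      have a3 : RF S (fun z : M => snd (fst z)) := RF.snd RF.fst'
      have a4 : RF S (fun z : M => fst (fst (fst (fst z)))) :=
        RF.fst (RF.fst (RF.fst RF.fst'))
      have a5 : RF S (fun z : M => snd (snd (fst (fst (fst z))))) :=
        RF.snd (RF.snd (RF.fst (RF.fst RF.fst')))
      exact ((Rec.lt a1 a2).and ((Rec.lt a3 a2).and ((Rec.Mem (a1.pair' RF.snd') a4).and
        (Rec.Mem (a3.pair' (RF.snd'.imp' a5)) a4)))).re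
    · refine RE.ex (P := fun z j => ∃ η, j < fst (snd z) ∧ Mem (pair j η) (fst z) ∧
        snd (snd z) = box η) ?_
      refine RE.ex (P := fun z η => snd z < fst (snd (fst z)) ∧
        Mem (pair (snd z) η) (fst (fst z)) ∧ snd (snd (fst z)) = box η) ?_
      have a1 : RF S (fun z : M => snd (fst z)) := RF.snd RF.fst'
      have a2 : RF S (fun z : M => fst (snd (fst (fst z)))) :=
        RF.fst (RF.snd (RF.fst RF.fst'))
      have a4 : RF S (fun z : M => fst (fst (fst z))) := RF.fst (RF.fst RF.fst')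
      have a5 : RF S (fun z : M => snd (snd (fst (fst z)))) :=
        RF.snd (RF.snd (RF.fst RF.fst'))
      exact ((Rec.lt a1 a2).and ((Rec.Mem (a1.pair' RF.snd') a4).and
        (Rec.eq a5 RF.snd'.box'))).re
    · refine RE.ex (P := fun z j => ∃ η, j < fst (snd z) ∧ Mem (pair j η) (fst z) ∧
        SubstInst η (snd (snd z))) ?_
      refine RE.ex (P := fun z η => snd z < fst (snd (fst z)) ∧
        Mem (pair (snd z) η) (fst (fst z)) ∧ SubstInst η (snd (snd (fst z)))) ?_
      have a1 : RF S (fun z : M => snd (fst z)) := RF.snd RF.fst'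
      have a2 : RF S (fun z : M => fst (snd (fst (fst z)))) :=
        RF.fst (RF.snd (RF.fst RF.fst'))
      have a4 : RF S (fun z : M => fst (fst (fst z))) := RF.fst (RF.fst RF.fst')
      have a5 : RF S (fun z : M => snd (snd (fst (fst z)))) :=
        RF.snd (RF.snd (RF.fst RF.fst'))
      exact (Rec.lt a1 a2).re.and ((Rec.Mem (a1.pair' RF.snd') a4).re.and
        (re_substInst.comp₂ (P := SubstInst) RF.snd' a5))
  refine this.congr fun d => ?_
  constructor
  · intro h i θ hi
    simpa using h _ hi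
  · intro h u hu
    have := h (fst u) (snd u) (by rwa [pair_fst_snd S])
    simpa using this

lemma re_provable : RE S (Provable : M → Prop) := by
  unfold Provable
  refine RE.ex (P := fun θ d => ∃ i, IsDerivation d ∧ Mem (pair i θ) d) ?_
  refine RE.ex (P := fun z i => IsDerivation (snd z) ∧ Mem (pair i (fst z)) (snd z)) ?_
  exact (re_isDerivation.comp (RF.snd RF.fst')).and
    (Rec.Mem (RF.snd'.pair' (RF.fst RF.fst')) (RF.snd RF.fst')).re

end Pool.Agent.RM
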