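import Pool.Agent.RM.Main

set_option autoImplicit false
set_option linter.style.haveILetI false

/-!
# From the basic axioms of RCA₀ to discretely ordered semirings
-/

namespace Pool.Agent.RM

namespace Raw

variable {M : Type*} [Zero M] [One M] [Add M] [Mul M] [LT M] {S : Set (Set M)}

section

variable (h : IsModelRCA0 M S)

include h

lemma ind {Q : M → Prop} (hQ : IsBounded S (fun v : Fin 2 → M => Q (v 0))) (h0 : Q 0)
    (hs : ∀ x, Q x → Q (x + 1)) : ∀ x, Q x := by
  intro x
  obtain ⟨_, hx⟩ := h.sigma_one_induction _ hQ ⟨0, by simpa using h0⟩ (by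
    rintro x ⟨y, hy⟩
    exact ⟨y, by simpa using hs x (by simpa using hy)⟩) x
  simpa using hx

lemma ind_ex {Q : M → M → Prop} (hQ : IsBounded S (fun v : Fin 2 → M => Q (v 0) (v 1)))
    (h0 : ∃ y, Q 0 y) (hs : ∀ x, (∃ y, Q x y) → ∃ y, Q (x + 1) y) : ∀ x, ∃ y, Q x y := by
  intro x
  have := h.sigma_one_induction _ hQ (by simpa using h0) (by
    intro x hx
    simpa using hs x (by simpa using hx)) x
  simpa using this

lemma zero_add' (n : M) : 0 + n = n := by
  refine ind h (Q := fun n => 0 + n = n) (.eq (.add (.param 0) (.var 0)) (.var 0)) ?_ ?_ n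
  · exact h.add_zero 0
  · intro x hx
    rw [h.add_succ, hx]

lemma add_assoc' (a b n : M) : (a + b) + n = a + (b + n) := by
  refine ind h (Q := fun n => (a + b) + n = a + (b + n))
    (.eq (.add (.param _) (.var 0)) (.add (.param _) (.add (.param _) (.var 0)))) ?_ ?_ n
  · rw [h.add_zero, h.add_zero]
  · intro x hx
    rw [h.add_succ, hx, h.add_succ, h.add_succ]

lemma one_add' (n : M) : 1 + n = n + 1 := by
  refine ind h (Q := fun n => 1 + n = n + 1)
    (.eq (.add (.param _) (.var 0)) (.add (.var 0) (.param _))) ?_ ?_ n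
  · rw [h.add_zero, zero_add' h]
  · intro x hx
    rw [h.add_succ, hx]

lemma add_comm' (a n : M) : a + n = n + a := by
  refine ind h (Q := fun n => a + n = n + a)
    (.eq (.add (.param _) (.var 0)) (.add (.var 0) (.param _))) ?_ ?_ n
  · rw [h.add_zero, zero_add' h]
  · intro x hx
    rw [h.add_succ, hx, add_assoc' h, ← one_add' h a, ← add_assoc' h]

lemma zero_mul' (n : M) : 0 * n = 0 := by
  refine ind h (Q := fun n => 0 * n = 0) (.eq (.mul (.param 0) (.var 0)) (.param 0)) ?_ ?_ n
  · exact h.mul_zero 0
  · intro x hx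
    rw [h.mul_succ, hx, h.add_zero]

lemma one_mul' (n : M) : 1 * n = n := by
  refine ind h (Q := fun n => 1 * n = n) (.eq (.mul (.param 1) (.var 0)) (.var 0)) ?_ ?_ n
  · exact h.mul_zero 1
  · intro x hx
    rw [h.mul_succ, hx]

lemma mul_one' (n : M) : n * 1 = n := by
  have := h.mul_succ n 0
  rwa [zero_add' h, h.mul_zero, zero_add' h] at this

lemma left_distrib' (a b n : M) : a * (b + n) = a * b + a * n := by
  refine ind h (Q := fun n => a * (b + n) = a * b + a * n)
    (.eq (.mul (.param _) (.add (.param _) (.var 0)))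
      (.add (.param (a * b)) (.mul (.param a) (.var 0)))) ?_ ?_ n
  · rw [h.add_zero, h.mul_zero, h.add_zero]
  · intro x hx
    rw [h.add_succ, h.mul_succ, hx, h.mul_succ, add_assoc' h]

lemma right_distrib' (a b n : M) : (a + b) * n = a * n + b * n := by
  refine ind h (Q := fun n => (a + b) * n = a * n + b * n)
    (.eq (.mul (.param _) (.var 0)) (.add (.mul (.param _) (.var 0)) (.mul (.param _) (.var 0))))
    ?_ ?_ n
  · rw [h.mul_zero, h.mul_zero, h.mul_zero, h.add_zero]
  · intro x hx
    rw [h.mul_succ, hx, h.mul_succ, h.mul_succ, add_assoc' h, add_assoc' h,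
      ← add_assoc' h (b * x) a b, add_comm' h (b * x) a, add_assoc' h a (b * x) b]

lemma mul_comm' (a n : M) : a * n = n * a := by
  refine ind h (Q := fun n => a * n = n * a)
    (.eq (.mul (.param _) (.var 0)) (.mul (.var 0) (.param _))) ?_ ?_ n
  · rw [h.mul_zero, zero_mul' h]
  · intro x hx
    rw [h.mul_succ, hx, right_distrib' h, one_mul' h]

lemma mul_assoc' (a b n : M) : (a * b) * n = a * (b * n) := by
  refine ind h (Q := fun n => (a * b) * n = a * (b * n))
    (.eq (.mul (.param _) (.var 0)) (.mul (.param _) (.mul (.param _) (.var 0)))) ?_ ?_ n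
  · rw [h.mul_zero, h.mul_zero, h.mul_zero]
  · intro x hx
    rw [h.mul_succ, hx, h.mul_succ, left_distrib' h]

lemma add_right_cancel' (x y n : M) : x + n = y + n → x = y := by
  refine ind h (Q := fun n => x + n = y + n → x = y)
    (.imp (.eq (.add (.param _) (.var 0)) (.add (.param _) (.var 0)))
      (.eq (.param _) (.param _))) ?_ ?_ n
  · intro h'
    rwa [h.add_zero, h.add_zero] at h'
  · intro z hz h'
    rw [h.add_succ, h.add_succ] at h'
    exact hz (h.succ_inj _ _ h')

/-- `a < b` iff `b = a + (c + 1)` for some `c` -/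
lemma lt_iff (a b : M) : a < b ↔ ∃ c, a + (c + 1) = b := by
  constructor
  · intro hab
    have key : ∀ b, ∃ c, a < b → a + (c + 1) = b := by
      refine ind_ex h (Q := fun b c => a < b → a + (c + 1) = b)
        (.imp (.lt (.param _) (.var 0)) (.eq (.add (.param _) (.add (.var 1) (.param _)))
          (.var 0))) ⟨0, fun h' => (h.not_lt_zero _ h').elim⟩ ?_
      rintro x ⟨c, hc⟩
      by_cases hax : a < x
      · exact ⟨c + 1, fun _ => by rw [h.add_succ, hc hax]⟩
      · refine ⟨0, fun h' => ?_⟩
        rcases (h.lt_succ a x).mp h' with h1 | h1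
        · exact absurd h1 hax
        · rw [zero_add' h, h1]
    obtain ⟨c, hc⟩ := key b
    exact ⟨c, hc hab⟩
  · rintro ⟨c, rfl⟩
    refine ind h (Q := fun c => a < a + (c + 1))
      (.lt (.param _) (.add (.param _) (.add (.var 0) (.param _)))) ?_ ?_ c
    · rw [zero_add' h]
      exact (h.lt_succ a a).mpr (Or.inr rfl)
    · intro x hx
      rw [h.add_succ a (x + 1)]
      exact (h.lt_succ _ _).mpr (Or.inl hx)

lemma zero_or_succ (a : M) : a = 0 ∨ ∃ b, a = b + 1 := by
  have key : ∀ a : M, ∃ b, (¬ a = 0 → a = b + 1) := by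
    refine ind_ex h (Q := fun a b => ¬ a = 0 → a = b + 1)
      (.imp (.not (.eq (.var 0) (.param 0))) (.eq (.var 0) (.add (.var 1) (.param 1))))
      ⟨0, fun h' => (h' rfl).elim⟩ ?_
    intro x _
    exact ⟨x, fun _ => rfl⟩
  obtain ⟨b, hb⟩ := key a
  by_cases ha : a = 0
  · exact Or.inl ha
  · exact Or.inr ⟨b, hb ha⟩

lemma lt_trans' {a b c : M} (h1 : a < b) (h2 : b < c) : a < c := by
  rw [lt_iff h] at h1 h2 ⊢
  obtain ⟨x, rfl⟩ := h1
  obtain ⟨y, rfl⟩ := h2
  refine ⟨(x + 1) + y, ?_⟩
  rw [add_assoc' h a, add_assoc' h (x + 1)]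

lemma lt_irrefl' (a : M) : ¬ a < a := by
  intro h1
  rw [lt_iff h] at h1
  obtain ⟨c, hc⟩ := h1
  have : c + 1 = 0 := by
    apply add_right_cancel' h _ _ a
    rw [add_comm' h (c + 1) a, hc, zero_add' h]
  exact h.succ_ne_zero c this

lemma lt_total (a b : M) : a < b ∨ a = b ∨ b < a := by
  have key : ∀ b, (a < b ∨ a = b) ∨ b < a := by
    refine ind h (Q := fun b => (a < b ∨ a = b) ∨ b < a)
      (.or (.or (.lt (.param _) (.var 0)) (.eq (.param _) (.var 0)))
        (.lt (.var 0) (.param _))) ?_ ?_
    · rcases zero_or_succ h a with rfl | ⟨b, rfl⟩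
      · exact Or.inl (Or.inr rfl)
      · right
        rw [lt_iff h]
        exact ⟨b, zero_add' h _⟩
    · intro x hx
      rcases hx with (hx | hx) | hx
      · exact Or.inl (Or.inl ((h.lt_succ _ _).mpr (Or.inl hx)))
      · exact Or.inl (Or.inl ((h.lt_succ _ _).mpr (Or.inr hx)))
      · rw [lt_iff h] at hx
        obtain ⟨c, rfl⟩ := hx
        rcases zero_or_succ h c with rfl | ⟨d, rfl⟩
        · left; right; rw [zero_add' h]
        · right
          rw [lt_iff h]
          refine ⟨d, ?_⟩
          rw [add_assoc' h, one_add' h]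
  rcases key b with (h1 | h1) | h1
  · exact Or.inl h1
  · exact Or.inr (Or.inl h1)
  · exact Or.inr (Or.inr h1)

end

/-- the commutative semiring structure on the number part of a model -/
@[reducible] def semiring (h : IsModelRCA0 M S) : CommSemiring M where
  add := (· + ·)
  zero := 0
  one := 1
  mul := (· * ·)
  add_assoc := add_assoc' h
  zero_add := zero_add' h
  add_zero := h.add_zero
  add_comm := add_comm' h
  nsmul := nsmulRec
  left_distrib := left_distrib' h
  right_distrib a b c := right_distrib' h a b c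
  zero_mul := zero_mul' h
  mul_zero := h.mul_zero
  mul_assoc := mul_assoc' h
  one_mul := one_mul' h
  mul_one := mul_one' h
  mul_comm := mul_comm' h

open Classical in
/-- the linear order on the number part of a model -/
@[reducible] noncomputable def linearOrder (h : IsModelRCA0 M S) : LinearOrder M where
  lt := (· < ·)
  le a b := a < b ∨ a = b
  le_refl a := Or.inr rfl
  le_trans a b c h1 h2 := by
    rcases h1 with h1 | rfl
    · rcases h2 with h2 | rfl
      · exact Or.inl (lt_trans' h h1 h2)
      · exact Or.inl h1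
    · exact h2
  lt_iff_le_not_ge a b := by
    constructor
    · intro h1
      refine ⟨Or.inl h1, ?_⟩
      rintro (h2 | rfl)
      · exact lt_irrefl' h a (lt_trans' h h1 h2)
      · exact lt_irrefl' h _ h1
    · rintro ⟨h1 | rfl, h2⟩
      · exact h1
      · exact (h2 (Or.inr rfl)).elim
  le_antisymm a b h1 h2 := by
    rcases h1 with h1 | rfl
    · rcases h2 with h2 | h2
      · exact (lt_irrefl' h a (lt_trans' h h1 h2)).elim
      · exact h2.symm
    · rfl
  le_total a b := by
    rcases lt_total h a b with h1 | rfl | h1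
    · exact Or.inl (Or.inl h1)
    · exact Or.inl (Or.inr rfl)
    · exact Or.inr (Or.inl h1)
  toDecidableLE := Classical.decRel _

lemma disc (h : IsModelRCA0 M S) :
    letI := semiring h
    letI := linearOrder h
    Disc M := by
  letI := semiring h
  letI := linearOrder h
  have lt_iff_ex : ∀ a b : M, a < b ↔ ∃ c, a + (c + 1) = b := lt_iff h
  have le_def' : ∀ a b : M, a ≤ b ↔ (a < b ∨ a = b) := fun _ _ => Iff.rfl
  have hadd : ∀ a b c : M, a < b → c + a < c + b := by
    intro a b c hab
    rw [lt_iff_ex] at hab ⊢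
    obtain ⟨d, rfl⟩ := hab
    exact ⟨d, by ring⟩
  have hsucc : ∀ c : M, 0 < c + 1 := fun c => by
    rw [lt_iff_ex]; exact ⟨c, by ring⟩
  have hpos : ∀ c : M, 0 < c → ∃ d, c = d + 1 := by
    intro c hc
    rw [lt_iff_ex] at hc
    obtain ⟨d, rfl⟩ := hc
    exact ⟨d, by ring⟩
  have hmul : ∀ a b c : M, a < b → 0 < c → c * a < c * b := by
    intro a b c hab hc
    obtain ⟨d, rfl⟩ := hpos c hc
    rw [lt_iff_ex] at hab
    obtain ⟨e, rfl⟩ := hab
    have : (d + 1) * (a + (e + 1)) = (d + 1) * a + ((d * e + d + e) + 1) := by ring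
    rw [this, lt_iff_ex]
    exact ⟨_, rfl⟩
  haveI : IsOrderedCancelAddMonoid M :=
    { add_le_add_left := by
        intro a b hab c
        rcases hab with hab | rfl
        · have := hadd a b c hab
          rw [add_comm c a, add_comm c b] at this
          exact Or.inl this
        · exact Or.inr rfl
      le_of_add_le_add_left := by
        intro a b c hbc
        by_contra hcon
        rw [not_le] at hcon
        exact absurd (hadd _ _ a hcon) (not_lt.mpr hbc) }
  haveI : ZeroLEOneClass M := ⟨by
    have := hsucc 0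
    rw [zero_add] at this
    exact this.le⟩
  haveI : Nontrivial M := ⟨0, 1, by
    have := hsucc 0
    rw [zero_add] at this
    exact this.ne⟩
  haveI : IsStrictOrderedRing M :=
    { mul_lt_mul_of_pos_left := fun a ha b c hbc => hmul _ _ _ hbc ha
      mul_lt_mul_of_pos_right := fun a ha b c hbc => by
        have := hmul _ _ _ hbc ha
        rwa [mul_comm, mul_comm a c] at this }
  exact
    { zero_le' := fun a => by
        rcases zero_or_succ h a with rfl | ⟨b, rfl⟩
        · exact le_rfl
        · exact (hsucc b).le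
      discrete := fun a b => by
        constructor
        · intro hab
          rw [lt_iff_ex] at hab
          obtain ⟨c, rfl⟩ := hab
          rcases zero_or_succ h c with rfl | ⟨d, rfl⟩
          · exact le_of_eq (by ring)
          · refine le_of_lt ?_
            rw [lt_iff_ex]
            exact ⟨d, by ring⟩
        · intro hab
          refine lt_of_lt_of_le ?_ hab
          rw [lt_iff_ex]
          exact ⟨0, by ring⟩
      exists_add := fun a b hab => by
        rcases hab with hab | rfl
        · rw [lt_iff_ex] at hab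
          obtain ⟨c, rfl⟩ := hab
          exact ⟨_, rfl⟩
        · exact ⟨0, (add_zero a).symm⟩ }

end Raw

variable {M : Type*} [Zero M] [One M] [Add M] [Mul M] [LT M] {S : Set (Set M)}

theorem weakCompleteness_raw (h : IsModelRCA0 M S) : WeakCompletenessS42 M S := by
  letI i1 := Raw.semiring h
  letI i2 := Raw.linearOrder h
  haveI : Disc M := Raw.disc h
  haveI : IsRCA S := ⟨h⟩
  exact weakCompleteness (M := M) (S := S)

/-- Sanity check: the full standard structure is a model of RCA₀. -/
theorem isModelRCA0_nat : IsModelRCA0 ℕ (Set.univ : Set (Set ℕ)) where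
  succ_ne_zero := fun n => Nat.succ_ne_zero n
  succ_inj := fun m n h => Nat.succ.inj h
  add_zero := fun m => rfl
  add_succ := fun m n => rfl
  mul_zero := fun m => rfl
  mul_succ := fun m n => rfl
  not_lt_zero := fun m => Nat.not_lt_zero m
  lt_succ := fun m n => by omega
  sigma_one_induction := fun P _ h0 hs x => Nat.rec h0 (fun n ih => hs n ih) x
  delta_one_comprehension := fun _ _ _ _ _ => Set.mem_univ _

end Pool.Agent.RM
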